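import Mathlib

/-!
# The explicit weighting on the model of the tope graph
-/

set_option autoImplicit false

namespace Pool.Agent.Lib.MP_46ca68_co

/-- The side of the line `e` on which the sector `k` of the plane lies (four lines, eight
sectors). -/
def base (k : Fin 8) (e : Fin 4) : Bool := decide ((k.val + 8 - e.val) % 8 < 4)

/-- The signs of `ℓ`, `z`, `z - ℓ`, where `b` says whether `ℓ > 0` and `p` is the position of `z`:
below `0` and `ℓ`, between, above. -/
def loc (b : Bool) (p : Fin 3) : Fin 3 → Bool :=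
  ![b, decide (p = 2) || (decide (p = 1) && b), decide (p = 2) || (decide (p = 1) && !b)]

/-- The model of the set of chambers. -/
abbrev YY : Type := Fin 8 × (Fin 4 → Fin 3)

/-- Distance on the hexagon. -/
def hex (b : Bool) (p : Fin 3) (b' : Bool) (p' : Fin 3) : ℕ := hammingDist (loc b p) (loc b' p')

theorem hex_same (b : Bool) (p p' : Fin 3) :
    hex b p b p' = ![![0, 1, 2], ![1, 0, 1], ![2, 1, 0]] p p' := by
  revert b p p'; decide

theorem hex_diff (b : Bool) (p p' : Fin 3) :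
    hex b p (!b) p' = ![![1, 2, 3], ![2, 3, 2], ![3, 2, 1]] p p' := by
  revert b p p'; decide

/-- Distance in the model. -/
def dY (y y' : YY) : ℕ := ∑ e, hex (base y.1 e) (y.2 e) (base y'.1 e) (y'.2 e)

section

variable {A : Type} [CommRing A]

/-- First (`c = false`) and second local weight vector. -/
def kap (q i1 i2 : A) (c : Bool) : Fin 3 → A :=
  bif c then ![-(q * (1 - q) * i1 * i2), (1 - q) * i1, -(q * (1 - q) * i1 * i2)]
  else ![i2, 0, i2]

/-- The local values. -/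
def alp (q i2 : A) (c : Bool) : Fin 3 → A :=
  bif c then ![0, (1 - q) ^ 2 * i2, 0] else ![1, 2 * q * i2, 1]

/-- The effective weight of a line. -/
def qq (q : A) (c : Bool) : A := bif c then -q ^ 3 else q

/-- The value `(1 - w)/(1 + w)` at the effective weight `w`. -/
def uu (q i1 i3 : A) (c : Bool) : A := bif c then (1 + q ^ 3) * i3 else (1 - q) * i1

theorem local_same (q i1 i2 : A) (h1 : i1 * (1 + q) = 1) (h2 : i2 * (1 + q ^ 2) = 1)
    (b c : Bool) (p : Fin 3) :
    ∑ p', q ^ hex b p b p' * kap q i1 i2 c p' = alp q i2 c p := by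
  simp only [hex_same, Fin.sum_univ_three]
  cases c <;> fin_cases p <;> simp [kap, alp]
  · linear_combination h2
  · ring
  · linear_combination h2
  · linear_combination (-(q * (1 - q) * i1)) * h2
  · linear_combination (-((1 - q) * i1)) * h2 + ((1 - q) ^ 2 * i2) * h1
  · linear_combination (-(q * (1 - q) * i1)) * h2

theorem local_diff (q i1 i2 : A) (h1 : i1 * (1 + q) = 1) (h2 : i2 * (1 + q ^ 2) = 1)
    (b c : Bool) (p : Fin 3) :
    ∑ p', q ^ hex b p (!b) p' * kap q i1 i2 c p' = qq q c * alp q i2 c p := by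
  simp only [hex_diff, Fin.sum_univ_three]
  cases c <;> fin_cases p <;> simp [kap, alp, qq]
  · linear_combination q * h2
  · ring
  · linear_combination q * h2
  · linear_combination (-(q ^ 2 * (1 - q) * i1)) * h2
  · linear_combination (-(q ^ 3 * (1 - q) * i1)) * h2 - (q ^ 3 * (1 - q) ^ 2 * i2) * h1
  · linear_combination (-(q ^ 2 * (1 - q) * i1)) * h2

theorem local_id (q i1 i2 : A) (h1 : i1 * (1 + q) = 1) (h2 : i2 * (1 + q ^ 2) = 1)
    (b b' c : Bool) (p : Fin 3) :
    ∑ p', q ^ hex b p b' p' * kap q i1 i2 c p'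
      = (if b = b' then 1 else qq q c) * alp q i2 c p := by
  by_cases h : b = b'
  · subst h
    rw [if_pos rfl, one_mul]
    exact local_same q i1 i2 h1 h2 b c p
  · have hb : b' = !b := by revert h; cases b <;> cases b' <;> simp
    rw [if_neg h, hb]
    exact local_diff q i1 i2 h1 h2 b c p

theorem alp_add (q i2 : A) (h2 : i2 * (1 + q ^ 2) = 1) (p : Fin 3) :
    alp q i2 true p + alp q i2 false p = 1 := by
  fin_cases p <;> simp [alp]
  linear_combination h2

/-- One of the two lines bounding the sector. -/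
def wallL (k : Fin 8) : Fin 4 := ⟨k.val % 4, Nat.mod_lt _ (by norm_num)⟩

/-- The other line bounding the sector. -/
def wallR (k : Fin 8) : Fin 4 := ⟨(k.val + 1) % 4, Nat.mod_lt _ (by norm_num)⟩

theorem base_id (Q u : Fin 4 → A) (hu : ∀ e, u e * (1 + Q e) = 1 - Q e) (D0 h : A)
    (hh : 2 * h = 1) (hD : D0 * (1 - Q 0 * Q 1 * Q 2 * Q 3) = 1) (k : Fin 8) :
    ∑ k', (∏ e, if base k e = base k' e then 1 else Q e) *
      (h * D0 * (u (wallL k') + u (wallR k'))) = 1 := by
  have w0 : wallL 0 = 0 := rfl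
  have w1 : wallL 1 = 1 := rfl
  have w2 : wallL 2 = 2 := rfl
  have w3 : wallL 3 = 3 := rfl
  have w4 : wallL 4 = 0 := rfl
  have w5 : wallL 5 = 1 := rfl
  have w6 : wallL 6 = 2 := rfl
  have w7 : wallL 7 = 3 := rfl
  have v0 : wallR 0 = 1 := rfl
  have v1 : wallR 1 = 2 := rfl
  have v2 : wallR 2 = 3 := rfl
  have v3 : wallR 3 = 0 := rfl
  have v4 : wallR 4 = 1 := rfl
  have v5 : wallR 5 = 2 := rfl
  have v6 : wallR 6 = 3 := rfl
  have v7 : wallR 7 = 0 := rfl
  simp only [Fin.sum_univ_eight, Fin.prod_univ_four, w0, w1, w2, w3, w4, w5, w6, w7, v0, v1, v2,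
    v3, v4, v5, v6, v7]
  fin_cases k <;> simp [base]
  · linear_combination (h * D0) * (hu 1 * (1) + hu 0 * (1) + hu 2 * (Q 1) + hu 3 * (Q 0) +
      hu 3 * (Q 1 * Q 2) + hu 2 * (Q 0 * Q 3) + hu 0 * (Q 1 * Q 2 * Q 3) +
      hu 1 * (Q 0 * Q 3 * Q 2)) +
      (2 * h) * hD + hh
  · linear_combination (h * D0) * (hu 2 * (1) + hu 1 * (1) + hu 3 * (Q 2) + hu 0 * (Q 1) +
      hu 0 * (Q 2 * Q 3) + hu 3 * (Q 1 * Q 0) + hu 1 * (Q 2 * Q 3 * Q 0) +
      hu 2 * (Q 1 * Q 0 * Q 3)) +
      (2 * h) * hD + hh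
  · linear_combination (h * D0) * (hu 3 * (1) + hu 2 * (1) + hu 0 * (Q 3) + hu 1 * (Q 2) +
      hu 1 * (Q 3 * Q 0) + hu 0 * (Q 2 * Q 1) + hu 2 * (Q 3 * Q 0 * Q 1) +
      hu 3 * (Q 2 * Q 1 * Q 0)) +
      (2 * h) * hD + hh
  · linear_combination (h * D0) * (hu 0 * (1) + hu 3 * (1) + hu 1 * (Q 0) + hu 2 * (Q 3) +
      hu 2 * (Q 0 * Q 1) + hu 1 * (Q 3 * Q 2) + hu 3 * (Q 0 * Q 1 * Q 2) +
      hu 0 * (Q 3 * Q 2 * Q 1)) +
      (2 * h) * hD + hh
  · linear_combination (h * D0) * (hu 1 * (1) + hu 0 * (1) + hu 2 * (Q 1) + hu 3 * (Q 0) +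
      hu 3 * (Q 1 * Q 2) + hu 2 * (Q 0 * Q 3) + hu 0 * (Q 1 * Q 2 * Q 3) +
      hu 1 * (Q 0 * Q 3 * Q 2)) +
      (2 * h) * hD + hh
  · linear_combination (h * D0) * (hu 2 * (1) + hu 1 * (1) + hu 3 * (Q 2) + hu 0 * (Q 1) +
      hu 0 * (Q 2 * Q 3) + hu 3 * (Q 1 * Q 0) + hu 1 * (Q 2 * Q 3 * Q 0) +
      hu 2 * (Q 1 * Q 0 * Q 3)) +
      (2 * h) * hD + hh
  · linear_combination (h * D0) * (hu 3 * (1) + hu 2 * (1) + hu 0 * (Q 3) + hu 1 * (Q 2) +
      hu 1 * (Q 3 * Q 0) + hu 0 * (Q 2 * Q 1) + hu 2 * (Q 3 * Q 0 * Q 1) +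
      hu 3 * (Q 2 * Q 1 * Q 0)) +
      (2 * h) * hD + hh
  · linear_combination (h * D0) * (hu 0 * (1) + hu 3 * (1) + hu 1 * (Q 0) + hu 2 * (Q 3) +
      hu 2 * (Q 0 * Q 1) + hu 1 * (Q 3 * Q 2) + hu 3 * (Q 0 * Q 1 * Q 2) +
      hu 0 * (Q 3 * Q 2 * Q 1)) +
      (2 * h) * hD + hh

theorem prod_qq (q : A) (J : Finset (Fin 4)) :
    ∏ e, qq q (decide (e ∈ J)) = (-q ^ 3) ^ J.card * q ^ (4 - J.card) := by
  have h : ∀ e, qq q (decide (e ∈ J)) = if e ∈ J then -q ^ 3 else q := by
    intro e; by_cases he : e ∈ J <;> simp [qq, he]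
  rw [Finset.prod_congr rfl fun e _ => h e, Finset.prod_ite, Finset.prod_const, Finset.prod_const]
  congr 2
  · congr 1; ext e; simp
  · have : (Finset.univ.filter fun e => e ∉ J) = Jᶜ := by ext e; simp
    rw [this, Finset.card_compl, Fintype.card_fin]

/-- The weighting. -/
noncomputable def ww (q i1 i2 i3 h : A) (D : ℕ → A) (y : YY) : A :=
  ∑ J : Finset (Fin 4), (∏ e, kap q i1 i2 (decide (e ∈ J)) (y.2 e)) *
    (h * D J.card * (uu q i1 i3 (decide (wallL y.1 ∈ J)) + uu q i1 i3 (decide (wallR y.1 ∈ J))))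

theorem uu_id (q i1 i3 : A) (h1 : i1 * (1 + q) = 1) (h3 : i3 * (1 - q ^ 3) = 1) (c : Bool) :
    uu q i1 i3 c * (1 + qq q c) = 1 - qq q c := by
  cases c <;> simp [uu, qq]
  · linear_combination (1 - q) * h1
  · linear_combination (1 + q ^ 3) * h3

theorem ww_id (q i1 i2 i3 h : A) (D : ℕ → A) (h1 : i1 * (1 + q) = 1)
    (h2 : i2 * (1 + q ^ 2) = 1) (h3 : i3 * (1 - q ^ 3) = 1) (hh : 2 * h = 1)
    (hD : ∀ j ≤ 4, D j * (1 - (-q ^ 3) ^ j * q ^ (4 - j)) = 1) (y : YY) :
    ∑ y', q ^ dY y y' * ww q i1 i2 i3 h D y' = 1 := by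
  obtain ⟨k, p⟩ := y
  rw [Fintype.sum_prod_type]
  -- the inner sum over the positions
  have inner : ∀ (k' : Fin 8) (J : Finset (Fin 4)),
      ∑ p' : Fin 4 → Fin 3, q ^ dY (k, p) (k', p') *
        ∏ e, kap q i1 i2 (decide (e ∈ J)) (p' e)
      = (∏ e, if base k e = base k' e then 1 else qq q (decide (e ∈ J))) *
        ∏ e, alp q i2 (decide (e ∈ J)) (p e) := by
    intro k' J
    have e1 : ∀ p' : Fin 4 → Fin 3, q ^ dY (k, p) (k', p') *
        ∏ e, kap q i1 i2 (decide (e ∈ J)) (p' e)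
        = ∏ e, (q ^ hex (base k e) (p e) (base k' e) (p' e) *
          kap q i1 i2 (decide (e ∈ J)) (p' e)) := by
      intro p'
      rw [Finset.prod_mul_distrib, Finset.prod_pow_eq_pow_sum]
      rfl
    rw [Finset.sum_congr rfl fun p' _ => e1 p']
    have e2 := Finset.prod_univ_sum (R := A) (fun _ : Fin 4 => (Finset.univ : Finset (Fin 3)))
      (fun e x => q ^ hex (base k e) (p e) (base k' e) x * kap q i1 i2 (decide (e ∈ J)) x)
    rw [Fintype.piFinset_univ] at e2
    rw [← e2, ← Finset.prod_mul_distrib]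
    exact Finset.prod_congr rfl fun e _ => local_id q i1 i2 h1 h2 _ _ _ _
  have step : ∀ k' : Fin 8, ∑ p' : Fin 4 → Fin 3,
      q ^ dY (k, p) (k', p') * ww q i1 i2 i3 h D (k', p')
      = ∑ J : Finset (Fin 4), (∏ e, alp q i2 (decide (e ∈ J)) (p e)) *
        ((∏ e, if base k e = base k' e then 1 else qq q (decide (e ∈ J))) *
        (h * D J.card * (uu q i1 i3 (decide (wallL k' ∈ J)) +
          uu q i1 i3 (decide (wallR k' ∈ J))))) := by
    intro k'
    unfold ww
    simp only [Finset.mul_sum]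
    rw [Finset.sum_comm]
    refine Finset.sum_congr rfl fun J _ => ?_
    rw [← mul_assoc, mul_comm (∏ e, alp q i2 (decide (e ∈ J)) (p e)), ← inner k' J,
      Finset.sum_mul]
    refine Finset.sum_congr rfl fun p' _ => ?_
    ring
  rw [Finset.sum_congr rfl fun k' _ => step k', Finset.sum_comm]
  have hJ : ∀ J : Finset (Fin 4), ∑ k' : Fin 8, (∏ e, alp q i2 (decide (e ∈ J)) (p e)) *
        ((∏ e, if base k e = base k' e then 1 else qq q (decide (e ∈ J))) *
        (h * D J.card * (uu q i1 i3 (decide (wallL k' ∈ J)) +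
          uu q i1 i3 (decide (wallR k' ∈ J)))))
      = ∏ e, alp q i2 (decide (e ∈ J)) (p e) := by
    intro J
    rw [← Finset.mul_sum, base_id (fun e => qq q (decide (e ∈ J)))
      (fun e => uu q i1 i3 (decide (e ∈ J))) (fun e => uu_id q i1 i3 h1 h3 _) (D J.card) h hh
      (by
        have := prod_qq q J
        rw [Fin.prod_univ_four] at this
        rw [this]
        exact hD _ (by simpa using Finset.card_le_univ J)) k, mul_one]
  rw [Finset.sum_congr rfl fun J _ => hJ J]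
  have hsum := Finset.prod_add (fun e : Fin 4 => alp q i2 true (p e))
    (fun e => alp q i2 false (p e)) Finset.univ
  rw [Finset.prod_congr rfl fun e _ => alp_add q i2 h2 (p e), Finset.prod_const_one,
    Finset.powerset_univ] at hsum
  rw [hsum]
  refine Finset.sum_congr rfl fun J _ => ?_
  rw [← Finset.prod_mul_prod_compl J (fun e => alp q i2 (decide (e ∈ J)) (p e))]
  congr 1
  · refine Finset.prod_congr rfl fun e he => ?_
    rw [decide_eq_true he]
  · rw [Finset.compl_eq_univ_sdiff]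
    refine Finset.prod_congr rfl fun e he => ?_
    have : e ∉ J := by simpa using he
    rw [decide_eq_false this]

/-- The local sums. -/
def ss (q i1 i2 : A) (c : Bool) : A := bif c then (1 - q) ^ 3 * i1 * i2 else 2 * i2

theorem sum_kap (q i1 i2 : A) (h2 : i2 * (1 + q ^ 2) = 1) (c : Bool) :
    ∑ p, kap q i1 i2 c p = ss q i1 i2 c := by
  rw [Fin.sum_univ_three]
  cases c <;> simp [kap, ss]
  · ring
  · linear_combination (-((1 - q) * i1)) * h2

theorem sum_ww (q i1 i2 i3 h : A) (D : ℕ → A) (h2 : i2 * (1 + q ^ 2) = 1) (hh : 2 * h = 1) :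
    ∑ y, ww q i1 i2 i3 h D y = ∑ j ∈ Finset.range 5, (Nat.choose 4 j : A) *
      ((ss q i1 i2 true ^ j * ss q i1 i2 false ^ (4 - j)) *
        (2 * D j * ((j : A) * uu q i1 i3 true + ((4 - j : ℕ) : A) * uu q i1 i3 false))) := by
  rw [Fintype.sum_prod_type]
  have step : ∀ k : Fin 8, ∑ p : Fin 4 → Fin 3, ww q i1 i2 i3 h D (k, p)
      = ∑ J : Finset (Fin 4), (ss q i1 i2 true ^ J.card * ss q i1 i2 false ^ (4 - J.card)) *
        (h * D J.card * (uu q i1 i3 (decide (wallL k ∈ J)) +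
          uu q i1 i3 (decide (wallR k ∈ J)))) := by
    intro k
    unfold ww
    rw [Finset.sum_comm]
    refine Finset.sum_congr rfl fun J _ => ?_
    change ∑ p' : Fin 4 → Fin 3, (∏ e, kap q i1 i2 (decide (e ∈ J)) (p' e)) *
      (h * D J.card * (uu q i1 i3 (decide (wallL k ∈ J)) +
        uu q i1 i3 (decide (wallR k ∈ J)))) = _
    rw [← Finset.sum_mul]
    congr 1
    have e2 := Finset.prod_univ_sum (R := A) (fun _ : Fin 4 => (Finset.univ : Finset (Fin 3)))
      (fun e x => kap q i1 i2 (decide (e ∈ J)) x)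
    rw [Fintype.piFinset_univ] at e2
    rw [← e2, Finset.prod_congr rfl fun e _ => sum_kap q i1 i2 h2 _]
    have hs : ∀ e, ss q i1 i2 (decide (e ∈ J))
        = if e ∈ J then ss q i1 i2 true else ss q i1 i2 false := by
      intro e; by_cases he : e ∈ J <;> simp [he]
    rw [Finset.prod_congr rfl fun e _ => hs e, Finset.prod_ite, Finset.prod_const,
      Finset.prod_const]
    congr 2
    · congr 1; ext e; simp
    · have : (Finset.univ.filter fun e => e ∉ J) = Jᶜ := by ext e; simp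
      rw [this, Finset.card_compl, Fintype.card_fin]
  rw [Finset.sum_congr rfl fun k _ => step k, Finset.sum_comm]
  have hJ : ∀ J : Finset (Fin 4), ∑ k : Fin 8,
      (ss q i1 i2 true ^ J.card * ss q i1 i2 false ^ (4 - J.card)) *
        (h * D J.card * (uu q i1 i3 (decide (wallL k ∈ J)) +
          uu q i1 i3 (decide (wallR k ∈ J))))
      = (ss q i1 i2 true ^ J.card * ss q i1 i2 false ^ (4 - J.card)) *
        (2 * D J.card * ((J.card : A) * uu q i1 i3 true +
          ((4 - J.card : ℕ) : A) * uu q i1 i3 false)) := by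
    intro J
    rw [← Finset.mul_sum, ← Finset.mul_sum]
    have hs : ∑ e, uu q i1 i3 (decide (e ∈ J))
        = (J.card : A) * uu q i1 i3 true + ((4 - J.card : ℕ) : A) * uu q i1 i3 false := by
      have hs' : ∀ e, uu q i1 i3 (decide (e ∈ J))
          = if e ∈ J then uu q i1 i3 true else uu q i1 i3 false := by
        intro e; by_cases he : e ∈ J <;> simp [he]
      rw [Finset.sum_congr rfl fun e _ => hs' e, Finset.sum_ite, Finset.sum_const,
        Finset.sum_const, nsmul_eq_mul, nsmul_eq_mul]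
      congr 3
      · congr 1; ext e; simp
      · have : (Finset.univ.filter fun e => e ∉ J) = Jᶜ := by ext e; simp
        rw [this, Finset.card_compl, Fintype.card_fin]
    have hk : ∑ k : Fin 8, (uu q i1 i3 (decide (wallL k ∈ J)) + uu q i1 i3 (decide (wallR k ∈ J)))
        = 4 * ∑ e, uu q i1 i3 (decide (e ∈ J)) := by
      rw [Fin.sum_univ_eight, Fin.sum_univ_four]
      have w0 : wallL 0 = 0 := rfl
      have w1 : wallL 1 = 1 := rfl
      have w2 : wallL 2 = 2 := rfl
      have w3 : wallL 3 = 3 := rfl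
      have w4 : wallL 4 = 0 := rfl
      have w5 : wallL 5 = 1 := rfl
      have w6 : wallL 6 = 2 := rfl
      have w7 : wallL 7 = 3 := rfl
      have v0 : wallR 0 = 1 := rfl
      have v1 : wallR 1 = 2 := rfl
      have v2 : wallR 2 = 3 := rfl
      have v3 : wallR 3 = 0 := rfl
      have v4 : wallR 4 = 1 := rfl
      have v5 : wallR 5 = 2 := rfl
      have v6 : wallR 6 = 3 := rfl
      have v7 : wallR 7 = 0 := rfl
      rw [w0, w1, w2, w3, w4, w5, w6, w7, v0, v1, v2, v3, v4, v5, v6, v7]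
      ring
    rw [hk, hs]
    congr 1
    linear_combination (2 * D J.card * ((J.card : A) * uu q i1 i3 true +
          ((4 - J.card : ℕ) : A) * uu q i1 i3 false)) * hh
  rw [Finset.sum_congr rfl fun J _ => hJ J]
  have := Finset.sum_powerset_apply_card (x := (Finset.univ : Finset (Fin 4)))
    (fun j => (ss q i1 i2 true ^ j *
    ss q i1 i2 false ^ (4 - j)) * (2 * D j * ((j : A) * uu q i1 i3 true +
      ((4 - j : ℕ) : A) * uu q i1 i3 false)))
  rw [Finset.powerset_univ] at this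
  rw [this]
  simp only [Finset.card_univ, Fintype.card_fin, nsmul_eq_mul]

end

end Pool.Agent.Lib.MP_46ca68_co
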