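import Pool.Agent.Lib.MP_46ca68_co.Geom
import Pool.Agent.Lib.MP_46ca68_co.Model

/-!
# The arrangement of 12 hyperplanes in `ℝ^6` and its chambers
-/

set_option autoImplicit false

namespace Pool.Agent.Lib.MP_46ca68_co

/-- coefficients of `x_0` -/
def ca : Fin 4 → ℝ := ![0, -1, -1, -1]

/-- coefficients of `x_1` -/
def cb : Fin 4 → ℝ := ![1, 1, 0, -1]

/-- The four forms `x_1`, `x_1 - x_0`, `-x_0`, `-x_0 - x_1`. -/
noncomputable def lin (e : Fin 4) : Module.Dual ℝ (Fin 6 → ℝ) :=
  ca e • LinearMap.proj 0 + cb e • LinearMap.proj 1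

/-- The coordinate `z_e`. -/
noncomputable def zc (e : Fin 4) : Module.Dual ℝ (Fin 6 → ℝ) :=
  LinearMap.proj (Fin.natAdd 2 e : Fin 6)

/-- The twelve forms `ℓ_e`, `z_e`, `z_e - ℓ_e`. -/
noncomputable def ff (i : Fin 4 × Fin 3) : Module.Dual ℝ (Fin 6 → ℝ) :=
  ![lin i.1, zc i.1, zc i.1 - lin i.1] i.2

/-- The point with given coordinates. -/
def pt (u v : ℝ) (z : Fin 4 → ℝ) : Fin 6 → ℝ := ![u, v, z 0, z 1, z 2, z 3]

theorem pt_z (u v : ℝ) (z : Fin 4 → ℝ) (e : Fin 4) :
    pt u v z (Fin.natAdd 2 e : Fin 6) = z e := by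
  fin_cases e <;> rfl

theorem lin_apply (e : Fin 4) (x : Fin 6 → ℝ) : lin e x = ca e * x 0 + cb e * x 1 := by
  simp [lin]

theorem lin_pt (e : Fin 4) (u v : ℝ) (z : Fin 4 → ℝ) :
    lin e (pt u v z) = ca e * u + cb e * v := by
  rw [lin_apply]; rfl

theorem zc_pt (e : Fin 4) (u v : ℝ) (z : Fin 4 → ℝ) : zc e (pt u v z) = z e := by
  unfold zc
  rw [LinearMap.proj_apply]
  exact pt_z u v z e

theorem ff_zero (e : Fin 4) : ff (e, 0) = lin e := rfl
theorem ff_one (e : Fin 4) : ff (e, 1) = zc e := rfl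
theorem ff_two (e : Fin 4) : ff (e, 2) = zc e - lin e := rfl

/-- a point which lies on exactly one of the twelve hyperplanes -/
def wit (i : Fin 4 × Fin 3) : Fin 6 → ℝ :=
  ![pt (![1, 1, 0, 1] i.1) (![0, 1, 1, -1] i.1) (fun _ => 10),
    pt 2 1 (fun e => if e = i.1 then 0 else 10),
    pt 2 1 (fun e => if e = i.1 then ca e * 2 + cb e * 1 else 10)] i.2

theorem ff_wit (i j : Fin 4 × Fin 3) : ff j (wit i) = 0 ↔ j = i := by
  obtain ⟨e, a⟩ := i
  obtain ⟨e', a'⟩ := j
  have h0 : ∀ k : Fin 4, ca k * 2 + cb k ≠ 0 := by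
    intro k; fin_cases k <;> norm_num [ca, cb]
  have h10 : ∀ k : Fin 4, (10 : ℝ) - (ca k * 2 + cb k) ≠ 0 := by
    intro k; fin_cases k <;> norm_num [ca, cb]
  fin_cases a
  · -- point on the line `e` of the base
    change ff (e', a') (pt (![1, 1, 0, 1] e) (![0, 1, 1, -1] e) (fun _ => 10)) = 0 ↔ _
    fin_cases a'
    · change lin e' _ = 0 ↔ _
      rw [lin_pt]
      fin_cases e <;> fin_cases e' <;> norm_num [ca, cb]
    · change zc e' _ = 0 ↔ _
      rw [zc_pt]
      simp
    · change (zc e' - lin e') _ = 0 ↔ _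
      rw [LinearMap.sub_apply, zc_pt, lin_pt]
      fin_cases e <;> fin_cases e' <;> norm_num [ca, cb]
  · change ff (e', a') (pt 2 1 (fun k => if k = e then 0 else 10)) = 0 ↔ _
    fin_cases a'
    · change lin e' _ = 0 ↔ _
      rw [lin_pt]
      simp [h0 e']
    · change zc e' _ = 0 ↔ _
      rw [zc_pt]
      simp
    · change (zc e' - lin e') _ = 0 ↔ _
      rw [LinearMap.sub_apply, zc_pt, lin_pt]
      by_cases h : e' = e
      · simp only [h, if_true, zero_sub, neg_eq_zero]
        simp [h0 e]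
      · simp only [h, if_false]
        simp [h10 e']
  · change ff (e', a') (pt 2 1 (fun k => if k = e then ca k * 2 + cb k * 1 else 10)) = 0 ↔ _
    fin_cases a'
    · change lin e' _ = 0 ↔ _
      rw [lin_pt]
      simp [h0 e']
    · change zc e' _ = 0 ↔ _
      rw [zc_pt]
      by_cases h : e' = e
      · simp only [h, if_true]
        simp [h0 e]
      · simp [h]
    · change (zc e' - lin e') _ = 0 ↔ _
      rw [LinearMap.sub_apply, zc_pt, lin_pt]
      by_cases h : e' = e
      · simp [h]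
      · simp only [h, if_false]
        simp [h10 e', h]

theorem ff_ne (i : Fin 4 × Fin 3) : ff i ≠ 0 := by
  intro h
  have h1 := (ff_wit (i.1 + 1, i.2) i).1 (by rw [h]; rfl)
  have h2 := congrArg Prod.fst h1
  simp at h2

theorem ff_inj : Function.Injective fun i => LinearMap.ker (ff i) := by
  intro i j h
  have h1 : wit i ∈ LinearMap.ker (ff i) := LinearMap.mem_ker.2 ((ff_wit i i).2 rfl)
  simp only at h
  rw [h] at h1
  exact ((ff_wit i j).1 (LinearMap.mem_ker.1 h1)).symm

/-- The arrangement. -/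
noncomputable def arr : Arrangement 6 := ofForms ff ff_ne

/-- The sign vector of a model chamber. -/
def sY (y : YY) : Fin 4 × Fin 3 → Bool := fun i => loc (base y.1 i.1) (y.2 i.1) i.2

theorem base_injective : ∀ k k' : Fin 8, (∀ e, base k e = base k' e) → k = k' := by decide

theorem loc_injective : ∀ (b : Bool) (p p' : Fin 3), (∀ j, loc b p j = loc b p' j) → p = p' := by
  decide

theorem sY_injective : Function.Injective sY := by
  rintro ⟨k, p⟩ ⟨k', p'⟩ h
  have hk : k = k' := by
    apply base_injective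
    intro e
    exact congrFun h (e, 0)
  subst hk
  have hp : p = p' := by
    funext e
    exact loc_injective (base k e) (p e) (p' e) fun j => congrFun h (e, j)
  rw [hp]

theorem hamming_sY (y y' : YY) : hammingDist (sY y) (sY y') = dY y y' := by
  unfold hammingDist dY hex hammingDist
  simp only [Finset.card_filter]
  rw [Fintype.sum_prod_type]
  rfl

/-- Representatives of the eight sectors. -/
def bu : Fin 8 → ℝ := ![2, 1, -1, -2, -2, -1, 1, 2]

/-- Representatives of the eight sectors, second coordinate. -/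
def bv : Fin 8 → ℝ := ![1, 2, 2, 1, -1, -2, -2, -1]

theorem base_rep (k : Fin 8) (e : Fin 4) :
    (base k e = true ∧ 0 < ca e * bu k + cb e * bv k) ∨
    (base k e = false ∧ ca e * bu k + cb e * bv k < 0) := by
  fin_cases k <;> fin_cases e <;>
    first
    | (left; refine ⟨by decide, ?_⟩; norm_num [ca, cb, bu, bv]; done)
    | (right; refine ⟨by decide, ?_⟩; norm_num [ca, cb, bu, bv]; done)

/-- The value of the coordinate `z` for a given value of `ℓ` and a given position. -/
noncomputable def zval (l : ℝ) (p : Fin 3) : ℝ := ![-|l| - 1, l / 2, |l| + 1] p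

theorem loc_zval (l : ℝ) (b : Bool) (h : (b = true ∧ 0 < l) ∨ (b = false ∧ l < 0)) (p : Fin 3) :
    (zval l p ≠ 0 ∧ zval l p - l ≠ 0) ∧ decide (0 < zval l p) = loc b p 1 ∧
      decide (0 < zval l p - l) = loc b p 2 := by
  have h1 := le_abs_self l
  have h2 := neg_abs_le l
  have h3 := abs_nonneg l
  rcases h with ⟨rfl, hl⟩ | ⟨rfl, hl⟩
  · fin_cases p
    · refine ⟨⟨?_, ?_⟩, ?_, ?_⟩ <;> simp [zval, loc] <;> first | linarith | (intro h; linarith) |
      exact decide_eq_true (by positivity)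
    · refine ⟨⟨?_, ?_⟩, ?_, ?_⟩ <;> simp [zval, loc] <;> first | linarith | (intro h; linarith) |
      exact decide_eq_true (by positivity)
    · refine ⟨⟨?_, ?_⟩, ?_, ?_⟩ <;> simp [zval, loc] <;> first | linarith | (intro h; linarith) |
      exact decide_eq_true (by positivity)
  · fin_cases p
    · refine ⟨⟨?_, ?_⟩, ?_, ?_⟩ <;> simp [zval, loc] <;> first | linarith | (intro h; linarith) |
      exact decide_eq_true (by positivity)
    · refine ⟨⟨?_, ?_⟩, ?_, ?_⟩ <;> simp [zval, loc] <;> first | linarith | (intro h; linarith) |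
      exact decide_eq_true (by positivity)
    · refine ⟨⟨?_, ?_⟩, ?_, ?_⟩ <;> simp [zval, loc] <;> first | linarith | (intro h; linarith) |
      exact decide_eq_true (by positivity)

/-- The point of a model chamber. -/
noncomputable def rep (y : YY) : Fin 6 → ℝ :=
  pt (bu y.1) (bv y.1) fun e => zval (ca e * bu y.1 + cb e * bv y.1) (y.2 e)

theorem rep_sign (y : YY) : (∀ i, ff i (rep y) ≠ 0) ∧ sg ff (rep y) = sY y := by
  have key : ∀ i, ff i (rep y) ≠ 0 ∧ sg ff (rep y) i = sY y i := by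
    rintro ⟨e, j⟩
    have hb := base_rep y.1 e
    obtain ⟨⟨h1, h2⟩, h3, h4⟩ := loc_zval _ _ hb (y.2 e)
    fin_cases j
    · change lin e (rep y) ≠ 0 ∧ decide (0 < lin e (rep y)) = base y.1 e
      unfold rep
      rw [lin_pt]
      rcases hb with ⟨hb1, hb2⟩ | ⟨hb1, hb2⟩
      · exact ⟨hb2.ne', by rw [hb1, decide_eq_true_iff]; exact hb2⟩
      · exact ⟨hb2.ne, by rw [hb1, decide_eq_false_iff_not]; exact not_lt.2 hb2.le⟩
    · change zc e (rep y) ≠ 0 ∧ decide (0 < zc e (rep y)) = loc (base y.1 e) (y.2 e) 1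
      unfold rep
      rw [zc_pt]
      exact ⟨h1, h3⟩
    · change (zc e - lin e) (rep y) ≠ 0 ∧
        decide (0 < (zc e - lin e) (rep y)) = loc (base y.1 e) (y.2 e) 2
      unfold rep
      rw [LinearMap.sub_apply, zc_pt, lin_pt]
      exact ⟨h2, h4⟩
  exact ⟨fun i => (key i).1, funext fun i => (key i).2⟩

/-- Every point off the hyperplanes has the sign vector of a model chamber. -/
theorem exists_model {x : Fin 6 → ℝ} (hx : ∀ i, ff i x ≠ 0) : ∃ y : YY, sY y = sg ff x := by
  -- the sector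
  obtain ⟨k, hk⟩ : ∃ k : Fin 8, ∀ e, base k e = decide (0 < lin e x) := by
    have hl : ∀ e, lin e x ≠ 0 := fun e => hx (e, 0)
    have l0 := hl 0
    have l1 := hl 1
    have l2 := hl 2
    have l3 := hl 3
    have e0 : lin 0 x = x 1 := by rw [lin_apply]; simp [ca, cb]
    have e1 : lin 1 x = x 1 - x 0 := by rw [lin_apply]; simp [ca, cb]; ring
    have e2 : lin 2 x = - x 0 := by rw [lin_apply]; simp [ca, cb]
    have e3 : lin 3 x = - x 0 - x 1 := by rw [lin_apply]; simp [ca, cb]; ring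
    rw [e0] at l0
    rw [e1] at l1
    rw [e2] at l2
    rw [e3] at l3
    have fin4 : ∀ (k : Fin 8) (b0 b1 b2 b3 : Bool), base k 0 = b0 → base k 1 = b1 →
        base k 2 = b2 → base k 3 = b3 → decide (0 < lin 0 x) = b0 → decide (0 < lin 1 x) = b1 →
        decide (0 < lin 2 x) = b2 → decide (0 < lin 3 x) = b3 →
        ∀ e, base k e = decide (0 < lin e x) := by
      intro k b0 b1 b2 b3 h0 h1 h2 h3 g0 g1 g2 g3 e
      fin_cases e
      · exact h0.trans g0.symm
      · exact h1.trans g1.symm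
      · exact h2.trans g2.symm
      · exact h3.trans g3.symm
    rw [e0, e1, e2, e3] at fin4
    rcases lt_or_gt_of_ne l0 with s0 | s0 <;> rcases lt_or_gt_of_ne l1 with s1 | s1 <;>
      rcases lt_or_gt_of_ne l2 with s2 | s2 <;> rcases lt_or_gt_of_ne l3 with s3 | s3
    all_goals first
      | (exfalso; linarith)
      | (refine ⟨0, fin4 0 _ _ _ _ rfl rfl rfl rfl ?_ ?_ ?_ ?_⟩ <;> simp [base] <;> linarith)
      | (refine ⟨1, fin4 1 _ _ _ _ rfl rfl rfl rfl ?_ ?_ ?_ ?_⟩ <;> simp [base] <;> linarith)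
      | (refine ⟨2, fin4 2 _ _ _ _ rfl rfl rfl rfl ?_ ?_ ?_ ?_⟩ <;> simp [base] <;> linarith)
      | (refine ⟨3, fin4 3 _ _ _ _ rfl rfl rfl rfl ?_ ?_ ?_ ?_⟩ <;> simp [base] <;> linarith)
      | (refine ⟨4, fin4 4 _ _ _ _ rfl rfl rfl rfl ?_ ?_ ?_ ?_⟩ <;> simp [base] <;> linarith)
      | (refine ⟨5, fin4 5 _ _ _ _ rfl rfl rfl rfl ?_ ?_ ?_ ?_⟩ <;> simp [base] <;> linarith)
      | (refine ⟨6, fin4 6 _ _ _ _ rfl rfl rfl rfl ?_ ?_ ?_ ?_⟩ <;> simp [base] <;> linarith)
      | (refine ⟨7, fin4 7 _ _ _ _ rfl rfl rfl rfl ?_ ?_ ?_ ?_⟩ <;> simp [base] <;> linarith)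
  -- the positions
  have hp : ∀ e : Fin 4, ∃ p : Fin 3, loc (base k e) p 1 = decide (0 < zc e x) ∧
      loc (base k e) p 2 = decide (0 < (zc e - lin e) x) := by
    intro e
    have h1 : lin e x ≠ 0 := hx (e, 0)
    have hb := hk e
    rw [LinearMap.sub_apply]
    by_cases c1 : 0 < zc e x <;> by_cases c2 : 0 < zc e x - lin e x
    · exact ⟨2, by simp [loc, c1], by simp [loc]; linarith⟩
    · refine ⟨1, ?_, ?_⟩
      · have : 0 < lin e x := by
          by_contra h; push Not at h c2; linarith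
        rw [hb]; simp [loc, c1, this]
      · have : 0 < lin e x := by
          by_contra h; push Not at h c2; linarith
        rw [hb]; simp [loc, this]; push Not at c2; linarith
    · refine ⟨1, ?_, ?_⟩
      · have : ¬ 0 < lin e x := by
          intro h; push Not at c1; linarith
        rw [hb]; simp [loc, c1, this]
      · have : ¬ 0 < lin e x := by
          intro h; push Not at c1; linarith
        rw [hb]; simp [loc, this]; linarith
    · refine ⟨0, ?_, ?_⟩
      · simp [loc]; exact not_lt.1 c1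
      · simp [loc]; push Not at c2; linarith
  choose p hp1 hp2 using hp
  refine ⟨(k, p), ?_⟩
  funext i
  obtain ⟨e, j⟩ := i
  fin_cases j
  · exact hk e
  · exact hp1 e
  · exact hp2 e

/-- The chamber of a model chamber. -/
noncomputable def toC (y : YY) : arr.Chamber :=
  arr.chamberOf ⟨rep y, (mem_compl_iff ff ff_ne _).2 (rep_sign y).1⟩

theorem sgC_toC (y : YY) : sgC ff ff_ne (toC y) = sY y := by
  unfold toC
  rw [← (rep_sign y).2]
  exact sgC_chamberOf ff ff_ne _

theorem toC_bijective : Function.Bijective toC := by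
  constructor
  · intro y y' h
    apply sY_injective
    rw [← sgC_toC, ← sgC_toC, h]
  · intro c
    obtain ⟨x, rfl⟩ := ConnectedComponents.surjective_coe c
    obtain ⟨y, hy⟩ := exists_model ((mem_compl_iff ff ff_ne _).1 x.2)
    refine ⟨y, ?_⟩
    apply sgC_injective ff ff_ne
    rw [sgC_toC, hy]
    exact (sgC_chamberOf ff ff_ne x).symm

/-- The model of the set of chambers. -/
noncomputable def eqC : YY ≃ arr.Chamber := Equiv.ofBijective toC toC_bijective

theorem dist_eqC (y y' : YY) : arr.dist (eqC y) (eqC y') = dY y y' := by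
  have h := dist_eq_hamming ff ff_ne ff_inj (toC y) (toC y')
  rw [sgC_toC, sgC_toC, hamming_sY] at h
  exact h

end Pool.Agent.Lib.MP_46ca68_co
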