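import Mathlib

/-!
# Hyperplane arrangements, chambers, tope graph and magnitude Euler characteristics

Definitions for MP_46ca68_co.
-/

set_option autoImplicit false

namespace Pool.Agent.Lib.MP_46ca68_co

/-- An arrangement in `ℝ^d`: a finite set of linear hyperplanes, i.e. of linear subspaces of
dimension `d - 1`. -/
structure Arrangement (d : ℕ) where
  /-- the hyperplanes -/
  hyps : Finset (Submodule ℝ (Fin d → ℝ))
  codim_one : ∀ H ∈ hyps, Module.finrank ℝ H + 1 = d

namespace Arrangement

variable {d : ℕ} (A : Arrangement d)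

/-- The complement of the union of the hyperplanes. -/
def compl : Set (Fin d → ℝ) := {x | ∀ H ∈ A.hyps, x ∉ H}

/-- The chambers: the connected components of the complement. -/
abbrev Chamber : Type := ConnectedComponents A.compl

/-- The chamber of a point of the complement. -/
def chamberOf (x : A.compl) : A.Chamber := (x : ConnectedComponents A.compl)

/-- The hyperplane `H` separates the chambers `a` and `b`: every segment from a point of `a` to a
point of `b` meets `H`. -/
def Separates (H : Submodule ℝ (Fin d → ℝ)) (a b : A.Chamber) : Prop :=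
  ∀ x y : A.compl, A.chamberOf x = a → A.chamberOf y = b →
    ∃ z ∈ segment ℝ (x : Fin d → ℝ) (y : Fin d → ℝ), z ∈ H

theorem separates_symm {H : Submodule ℝ (Fin d → ℝ)} {a b : A.Chamber}
    (h : A.Separates H a b) : A.Separates H b a := by
  intro x y hx hy
  obtain ⟨z, hz, hzH⟩ := h y x hy hx
  exact ⟨z, by rwa [segment_symm], hzH⟩

theorem not_separates_self {H : Submodule ℝ (Fin d → ℝ)} (hH : H ∈ A.hyps) (a : A.Chamber) :
    ¬ A.Separates H a a := by
  intro h
  obtain ⟨x, rfl⟩ := ConnectedComponents.surjective_coe a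
  obtain ⟨z, hz, hzH⟩ := h x x rfl rfl
  rw [segment_same, Set.mem_singleton_iff] at hz
  subst hz
  exact x.2 H hH hzH

/-- The tope graph: the vertices are the chambers, and two chambers are adjacent when exactly one
hyperplane of the arrangement separates them. -/
def topeGraph : SimpleGraph A.Chamber where
  Adj a b := ∃! H : Submodule ℝ (Fin d → ℝ), H ∈ A.hyps ∧ A.Separates H a b
  symm := ⟨by
    rintro a b ⟨H, ⟨hH, hs⟩, hu⟩
    exact ⟨H, ⟨hH, A.separates_symm hs⟩, fun H' h' => hu H' ⟨h'.1, A.separates_symm h'.2⟩⟩⟩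
  loopless := ⟨by
    rintro a ⟨H, ⟨hH, hs⟩, -⟩
    exact A.not_separates_self hH a hs⟩

/-- The path metric of the tope graph. -/
noncomputable def dist (a b : A.Chamber) : ℕ := A.topeGraph.dist a b

/-- The rank of the magnitude chain group `MC_{k,ℓ}` of the tope graph: the number of tuples
`(x_0, ..., x_k)` of chambers with `x_i ≠ x_{i+1}` and `∑ d(x_i, x_{i+1}) = ℓ`. -/
noncomputable def rankMC (k ℓ : ℕ) : ℕ :=
  Nat.card {x : Fin (k + 1) → A.Chamber //
    (∀ i : Fin k, x i.castSucc ≠ x i.succ) ∧ ∑ i : Fin k, A.dist (x i.castSucc) (x i.succ) = ℓ}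

/-- The magnitude Euler characteristic `χ_ℓ = ∑_k (-1)^k rank MC_{k,ℓ}`. -/
noncomputable def chi (ℓ : ℕ) : ℤ := ∑ᶠ k : ℕ, (-1 : ℤ) ^ k * (A.rankMC k ℓ : ℤ)

end Arrangement

end Pool.Agent.Lib.MP_46ca68_co
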