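import Mathlib

/-!
# The ring of power series which converge absolutely on a disc, and evaluation
-/

set_option autoImplicit false

open PowerSeries Filter Topology

namespace Pool.Agent.Lib.MP_46ca68_co

/-- complex power series which converge absolutely at radius `r` -/
def SR (r : ℝ) : Subring ℂ⟦X⟧ where
  carrier := {P | Summable fun n => ‖coeff n P * (r : ℂ) ^ n‖}
  mul_mem' := by
    intro P Q hP hQ
    have h := summable_norm_sum_mul_antidiagonal_of_summable_norm hP hQ
    refine h.congr fun n => ?_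
    congr 1
    rw [coeff_mul, Finset.sum_mul]
    refine Finset.sum_congr rfl fun kl hkl => ?_
    rw [← Finset.HasAntidiagonal.mem_antidiagonal.1 hkl, pow_add]
    ring
  one_mem' := by
    refine summable_of_ne_finset_zero (s := {0}) fun n hn => ?_
    rw [coeff_one, if_neg (by simpa using hn)]
    simp
  add_mem' := by
    intro P Q hP hQ
    refine Summable.of_nonneg_of_le (fun n => norm_nonneg _) (fun n => ?_) (hP.add hQ)
    rw [map_add, add_mul]
    exact norm_add_le _ _
  zero_mem' := by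
    show Summable fun n => ‖coeff n (0 : ℂ⟦X⟧) * (r : ℂ) ^ n‖
    simp only [map_zero, zero_mul, norm_zero]
    exact summable_zero
  neg_mem' := by
    intro P hP
    simpa using hP

theorem mem_SR {r : ℝ} {P : ℂ⟦X⟧} : P ∈ SR r ↔ Summable fun n => ‖coeff n P * (r : ℂ) ^ n‖ :=
  Iff.rfl

theorem summable_eval {r : ℝ} {P : ℂ⟦X⟧} (hP : P ∈ SR r) {z : ℂ} (hz : ‖z‖ ≤ r) :
    Summable fun n => ‖coeff n P * z ^ n‖ := by
  refine Summable.of_nonneg_of_le (fun n => norm_nonneg _) (fun n => ?_) (mem_SR.1 hP)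
  rw [norm_mul, norm_mul, norm_pow, norm_pow]
  have hr : ‖(r : ℂ)‖ = r := by
    rw [Complex.norm_real, Real.norm_eq_abs, abs_of_nonneg (le_trans (norm_nonneg z) hz)]
  rw [hr]
  exact mul_le_mul_of_nonneg_left (pow_le_pow_left₀ (norm_nonneg _) hz n) (norm_nonneg _)

/-- evaluation at a point of the closed disc -/
noncomputable def ev {r : ℝ} {z : ℂ} (hz : ‖z‖ ≤ r) : SR r →+* ℂ where
  toFun P := ∑' n, coeff n (P : ℂ⟦X⟧) * z ^ n
  map_one' := by
    rw [tsum_eq_single 0 (fun n hn => by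
      simp only [Subring.coe_one]
      rw [coeff_one, if_neg hn, zero_mul])]
    simp
  map_mul' := by
    intro P Q
    rw [tsum_mul_tsum_eq_tsum_sum_antidiagonal_of_summable_norm (summable_eval P.2 hz)
      (summable_eval Q.2 hz)]
    refine tsum_congr fun n => ?_
    rw [Subring.coe_mul, coeff_mul, Finset.sum_mul]
    refine Finset.sum_congr rfl fun kl hkl => ?_
    rw [← Finset.HasAntidiagonal.mem_antidiagonal.1 hkl, pow_add]
    ring
  map_zero' := by simp
  map_add' := by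
    intro P Q
    rw [← (summable_eval P.2 hz).of_norm.tsum_add (summable_eval Q.2 hz).of_norm]
    refine tsum_congr fun n => ?_
    rw [Subring.coe_add, map_add, add_mul]

theorem ev_apply {r : ℝ} {z : ℂ} (hz : ‖z‖ ≤ r) (P : SR r) :
    ev hz P = ∑' n, coeff n (P : ℂ⟦X⟧) * z ^ n := rfl

theorem X_mem (r : ℝ) : (X : ℂ⟦X⟧) ∈ SR r := by
  refine summable_of_ne_finset_zero (s := {1}) fun n hn => ?_
  rw [coeff_X, if_neg (by simpa using hn)]
  simp

/-- the variable -/
noncomputable def XS (r : ℝ) : SR r := ⟨X, X_mem r⟩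

theorem ev_X {r : ℝ} {z : ℂ} (hz : ‖z‖ ≤ r) : ev hz (XS r) = z := by
  rw [ev_apply, tsum_eq_single 1 (fun n hn => by
    simp only [XS]
    rw [coeff_X, if_neg hn, zero_mul])]
  simp [XS]

theorem C_mem (r : ℝ) (c : ℂ) : (C c : ℂ⟦X⟧) ∈ SR r := by
  refine summable_of_ne_finset_zero (s := {0}) fun n hn => ?_
  rw [coeff_C, if_neg (by simpa using hn)]
  simp

/-- constants -/
noncomputable def CS (r : ℝ) (c : ℂ) : SR r := ⟨C c, C_mem r c⟩

theorem ev_C {r : ℝ} {z : ℂ} (hz : ‖z‖ ≤ r) (c : ℂ) : ev hz (CS r c) = c := by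
  rw [ev_apply, tsum_eq_single 0 (fun n hn => by
    simp only [CS]
    rw [coeff_C, if_neg hn, zero_mul])]
  simp [CS]

/-- the geometric series `∑ c^m X^(k m)` -/
noncomputable def geo (k : ℕ) (c : ℂ) : ℂ⟦X⟧ :=
  PowerSeries.mk fun n => if k ∣ n then c ^ (n / k) else 0

theorem geo_mem {r : ℝ} (hr0 : 0 ≤ r) (hr : r < 1) (k : ℕ) (c : ℂ) (hc : ‖c‖ = 1) :
    geo k c ∈ SR r := by
  rw [mem_SR]
  refine Summable.of_nonneg_of_le (fun n => norm_nonneg _) (fun n => ?_)
    (summable_geometric_of_lt_one hr0 hr)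
  have hn : ‖(r : ℂ)‖ = r := by rw [Complex.norm_real, Real.norm_eq_abs, abs_of_nonneg hr0]
  rw [norm_mul, norm_pow, hn, geo, coeff_mk]
  have h1 : ‖(if k ∣ n then c ^ (n / k) else 0 : ℂ)‖ ≤ 1 := by
    split_ifs
    · rw [norm_pow, hc, one_pow]
    · simp
  have h2 : 0 ≤ r ^ n := pow_nonneg hr0 n
  nlinarith

theorem mul_geo (k : ℕ) (hk : 0 < k) (c : ℂ) : (1 - C c * X ^ k) * geo k c = 1 := by
  ext n
  rw [sub_mul, one_mul, mul_assoc, map_sub, coeff_C_mul, coeff_X_pow_mul', coeff_one]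
  simp only [geo, coeff_mk]
  rcases Nat.eq_zero_or_pos n with h0 | h0
  · subst h0
    have : ¬ k ≤ 0 := by omega
    simp [this]
  · rw [if_neg h0.ne']
    by_cases hkn : k ≤ n
    · rw [if_pos hkn]
      by_cases hd : k ∣ n
      · obtain ⟨m, rfl⟩ := hd
        have hm : 0 < m := Nat.pos_of_mul_pos_left h0 |> fun h => by
          rcases Nat.eq_zero_or_pos m with h' | h'
          · subst h'; simp at h0
          · exact h'
        obtain ⟨m, rfl⟩ : ∃ m', m = m' + 1 := ⟨m - 1, by omega⟩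
        have e1 : k * (m + 1) - k = k * m := by rw [Nat.mul_succ]; omega
        rw [e1, if_pos (Dvd.intro _ rfl), if_pos (Dvd.intro _ rfl),
          Nat.mul_div_cancel_left _ hk, Nat.mul_div_cancel_left _ hk, pow_succ]
        ring
      · have hd' : ¬ k ∣ n - k := by
          intro h
          exact hd ((Nat.dvd_sub_iff_left hkn dvd_rfl).1 h)
        rw [if_neg hd, if_neg hd']
        ring
    · rw [if_neg hkn]
      have hd : ¬ k ∣ n := fun h => hkn (Nat.le_of_dvd h0 h)
      rw [if_neg hd]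
      ring

/-- inverse of `1 - c X^k` -/
theorem exists_inv {r : ℝ} (hr0 : 0 ≤ r) (hr : r < 1) (k : ℕ) (hk : 0 < k) (c : ℂ)
    (hc : ‖c‖ = 1) : ∃ G : SR r, (1 - CS r c * XS r ^ k) * G = 1 := by
  refine ⟨⟨geo k c, geo_mem hr0 hr k c hc⟩, ?_⟩
  apply Subtype.ext
  exact mul_geo k hk c

end Pool.Agent.Lib.MP_46ca68_co
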