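import Mathlib

/-!
# Counting chains through a weighting with power series entries
-/

set_option autoImplicit false

open PowerSeries

namespace Pool.Agent.Lib.MP_46ca68_co

variable {Y : Type} [Fintype Y] [DecidableEq Y] (d : Y → Y → ℕ)

/-- Number of chains of `k` steps and total length `ℓ` which start at `x`. -/
def cnt : ℕ → ℕ → Y → ℕ
  | 0, ℓ, _ => if ℓ = 0 then 1 else 0
  | k + 1, ℓ, x => ∑ y, if x ≠ y ∧ d x y ≤ ℓ then cnt k (ℓ - d x y) y else 0

/-- The condition on a tuple. -/
def IsChain (k ℓ : ℕ) (f : Fin (k + 1) → Y) : Prop :=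
  (∀ i : Fin k, f i.castSucc ≠ f i.succ) ∧ ∑ i : Fin k, d (f i.castSucc) (f i.succ) = ℓ

instance (k ℓ : ℕ) : DecidablePred (IsChain d k ℓ) := fun f => by unfold IsChain; infer_instance

theorem isChain_cons (k ℓ : ℕ) (x : Y) (g : Fin (k + 1) → Y) :
    IsChain d (k + 1) ℓ (Fin.cons x g : Fin (k + 2) → Y) ↔
      x ≠ g 0 ∧ d x (g 0) ≤ ℓ ∧ IsChain d k (ℓ - d x (g 0)) g := by
  unfold IsChain
  rw [Fin.forall_fin_succ, Fin.sum_univ_succ]
  simp only [Fin.castSucc_zero, Fin.cons_zero, Fin.cons_succ, Fin.castSucc_succ]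
  constructor
  · rintro ⟨⟨h1, h2⟩, h3⟩
    exact ⟨h1, by omega, h2, by omega⟩
  · rintro ⟨h1, h2, h3, h4⟩
    exact ⟨⟨h1, h3⟩, by omega⟩

theorem card_start (k : ℕ) : ∀ (ℓ : ℕ) (x : Y),
    (Finset.univ.filter fun f : Fin (k + 1) → Y => f 0 = x ∧ IsChain d k ℓ f).card
      = cnt d k ℓ x := by
  induction k with
  | zero =>
    intro ℓ x
    have h : (Finset.univ.filter fun f : Fin (0 + 1) → Y => f 0 = x ∧ IsChain d 0 ℓ f)
        = if ℓ = 0 then {fun _ => x} else ∅ := by
      ext f
      have hf : f 0 = x ↔ f = fun _ => x := by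
        constructor
        · intro h
          funext i
          rw [← h]
          exact congrArg f (Subsingleton.elim (α := Fin 1) i 0)
        · intro h; rw [h]
      by_cases hℓ : ℓ = 0
      · subst hℓ
        simp [IsChain, hf]
      · have h0 : ¬ IsChain d 0 ℓ f := by
          rintro ⟨-, h⟩
          apply hℓ
          rw [← h]
          simp
        simp [hℓ, h0]
    rw [h]
    unfold cnt
    split_ifs <;> simp
  | succ k ih =>
    intro ℓ x
    unfold cnt
    rw [Finset.card_eq_sum_card_fiberwise (f := fun f => f 1) (t := Finset.univ)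
      (fun _ _ => Finset.mem_coe.2 (Finset.mem_univ _))]
    refine Finset.sum_congr rfl fun y _ => ?_
    by_cases h : x ≠ y ∧ d x y ≤ ℓ
    · rw [if_pos h, ← ih]
      refine Finset.card_bij' (fun f _ => Fin.tail f) (fun g _ => Fin.cons x g) ?_ ?_ ?_ ?_
      · intro f hf
        simp only [Finset.mem_filter, Finset.mem_univ, true_and] at hf ⊢
        obtain ⟨⟨h0, hc⟩, h1⟩ := hf
        have e : f = Fin.cons x (Fin.tail f) := by rw [← h0, Fin.cons_self_tail]
        rw [e, isChain_cons] at hc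
        have h2 : Fin.tail f 0 = y := h1
        rw [h2] at hc
        exact ⟨h2, hc.2.2⟩
      · intro g hg
        simp only [Finset.mem_filter, Finset.mem_univ, true_and] at hg ⊢
        refine ⟨⟨Fin.cons_zero _ _, ?_⟩, ?_⟩
        · rw [isChain_cons, hg.1]
          exact ⟨h.1, h.2, hg.2⟩
        · exact hg.1
      · intro f hf
        simp only [Finset.mem_filter, Finset.mem_univ, true_and] at hf
        rw [← hf.1.1, Fin.cons_self_tail]
      · intro g _
        exact Fin.tail_cons _ _
    · rw [if_neg h, Finset.card_eq_zero, Finset.filter_eq_empty_iff]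
      intro f hf h1
      simp only [Finset.mem_filter, Finset.mem_univ, true_and] at hf
      obtain ⟨h0, hc⟩ := hf
      have e : f = Fin.cons x (Fin.tail f) := by rw [← h0, Fin.cons_self_tail]
      rw [e, isChain_cons] at hc
      have h2 : Fin.tail f 0 = y := h1
      rw [h2] at hc
      exact h ⟨hc.1, hc.2.1⟩

theorem card_chains (k ℓ : ℕ) :
    Nat.card {f : Fin (k + 1) → Y // IsChain d k ℓ f} = ∑ x, cnt d k ℓ x := by
  rw [Nat.card_eq_fintype_card, Fintype.card_subtype,
    Finset.card_eq_sum_card_fiberwise (f := fun f => f 0) (t := Finset.univ)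
      (fun _ _ => Finset.mem_coe.2 (Finset.mem_univ _))]
  refine Finset.sum_congr rfl fun x _ => ?_
  rw [← card_start, Finset.filter_filter]
  congr 1
  ext f
  simp only [Finset.mem_filter, Finset.mem_univ, true_and]
  tauto

variable (hd : ∀ x y, x ≠ y → 1 ≤ d x y)

include hd in
theorem cnt_eq_zero (k : ℕ) : ∀ ℓ : ℕ, ℓ < k → ∀ x, cnt d k ℓ x = 0 := by
  induction k with
  | zero => intro ℓ h; omega
  | succ k ih =>
    intro ℓ h x
    unfold cnt
    refine Finset.sum_eq_zero fun y _ => ?_
    split_ifs with hxy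
    · have := hd x y hxy.1
      exact ih _ (by omega) y
    · rfl

include hd in
/-- A weighting with power series entries computes the alternating sums of the numbers of
chains. -/
theorem coeff_weighting {K : Type} [CommRing K] (hd0 : ∀ x, d x x = 0) (w : Y → K⟦X⟧)
    (hw : ∀ x, ∑ y, (X : K⟦X⟧) ^ d x y * w y = 1) (ℓ : ℕ) :
    ∀ x, coeff ℓ (w x) = ∑ k ∈ Finset.range (ℓ + 1), (-1 : K) ^ k * (cnt d k ℓ x : K) := by
  induction ℓ using Nat.strong_induction_on with
  | _ ℓ ih =>
    intro x
    have h1 : w x + ∑ y ∈ Finset.univ.erase x, (X : K⟦X⟧) ^ d x y * w y = 1 := by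
      rw [← hw x, ← Finset.add_sum_erase _ _ (Finset.mem_univ x), hd0, pow_zero, one_mul]
    have h2 := congrArg (coeff ℓ) h1
    rw [map_add, map_sum, coeff_one] at h2
    have h3 : ∀ y ∈ Finset.univ.erase x, coeff ℓ ((X : K⟦X⟧) ^ d x y * w y)
        = ∑ k ∈ Finset.range ℓ, (-1 : K) ^ k *
          ((if x ≠ y ∧ d x y ≤ ℓ then cnt d k (ℓ - d x y) y else 0 : ℕ) : K) := by
      intro y hy
      have hxy : x ≠ y := fun h => (Finset.mem_erase.1 hy).1 h.symm
      have hpos := hd x y hxy
      rw [coeff_X_pow_mul']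
      by_cases hle : d x y ≤ ℓ
      · rw [if_pos hle, ih _ (by omega) y]
        simp only [hxy, ne_eq, not_false_eq_true, hle, and_self, if_true]
        refine Finset.sum_subset (fun k hk => ?_) (fun k _ hk => ?_)
        · rw [Finset.mem_range] at hk ⊢; omega
        · rw [Finset.mem_range, not_lt] at hk
          rw [cnt_eq_zero d hd k _ (by omega), Nat.cast_zero, mul_zero]
      · rw [if_neg hle]
        symm
        refine Finset.sum_eq_zero fun k _ => ?_
        rw [if_neg (fun h => hle h.2), Nat.cast_zero, mul_zero]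
    rw [Finset.sum_congr rfl h3, Finset.sum_comm] at h2
    rw [Finset.sum_range_succ']
    have h4 : ∀ k ∈ Finset.range ℓ, ∑ y ∈ Finset.univ.erase x, (-1 : K) ^ k *
          ((if x ≠ y ∧ d x y ≤ ℓ then cnt d k (ℓ - d x y) y else 0 : ℕ) : K)
        = (-1 : K) ^ k * (cnt d (k + 1) ℓ x : K) := by
      intro k _
      rw [← Finset.mul_sum, ← Nat.cast_sum]
      congr 2
      rw [cnt, ← Finset.add_sum_erase _ _ (Finset.mem_univ x)]
      simp
    rw [Finset.sum_congr rfl h4] at h2
    have h5 : ∑ k ∈ Finset.range ℓ, (-1 : K) ^ (k + 1) * (cnt d (k + 1) ℓ x : K)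
        = - ∑ k ∈ Finset.range ℓ, (-1 : K) ^ k * (cnt d (k + 1) ℓ x : K) := by
      rw [← Finset.sum_neg_distrib]
      refine Finset.sum_congr rfl fun k _ => ?_
      ring
    rw [h5]
    have h6 : (-1 : K) ^ 0 * (cnt d 0 ℓ x : K) = if ℓ = 0 then 1 else 0 := by
      unfold cnt
      split_ifs <;> simp
    rw [h6, ← h2]
    ring

end Pool.Agent.Lib.MP_46ca68_co
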