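import Pool.Agent.Lib.MP_46ca68_co.Arr
import Pool.Agent.Lib.MP_46ca68_co.Series
import Pool.Agent.Lib.MP_46ca68_co.Eval

/-!
# The generating function of the magnitude Euler characteristics of the arrangement
-/

set_option autoImplicit false

open PowerSeries

namespace Pool.Agent.Lib.MP_46ca68_co

theorem dY_self (y : YY) : dY y y = 0 := by
  rw [← hamming_sY, hammingDist_self]

theorem dY_pos (y y' : YY) (h : y ≠ y') : 1 ≤ dY y y' := by
  rw [← hamming_sY]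
  exact Nat.one_le_iff_ne_zero.2 fun h0 => h (sY_injective (hammingDist_eq_zero.1 h0))

theorem rankMC_eq (k ℓ : ℕ) : arr.rankMC k ℓ = ∑ y, cnt dY k ℓ y := by
  rw [← card_chains]
  unfold Arrangement.rankMC
  refine (Nat.card_congr ?_).symm
  refine (Equiv.arrowCongr (Equiv.refl (Fin (k + 1))) eqC).subtypeEquiv fun f => ?_
  unfold IsChain
  simp only [Equiv.arrowCongr_apply, Equiv.refl_symm, Equiv.refl_apply, Function.comp_apply,
    Equiv.coe_refl, Function.comp_id, dist_eqC, ne_eq, EmbeddingLike.apply_eq_iff_eq]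

theorem chi_eq (ℓ : ℕ) :
    arr.chi ℓ = ∑ k ∈ Finset.range (ℓ + 1), (-1 : ℤ) ^ k * (∑ y, cnt dY k ℓ y : ℕ) := by
  unfold Arrangement.chi
  rw [finsum_eq_sum_of_support_subset (s := Finset.range (ℓ + 1))]
  · refine Finset.sum_congr rfl fun k _ => ?_
    rw [rankMC_eq]
  · intro k hk
    rw [Finset.coe_range, Set.mem_Iio]
    by_contra hlt
    apply hk
    change (-1 : ℤ) ^ k * (arr.rankMC k ℓ : ℤ) = 0
    rw [rankMC_eq, Finset.sum_eq_zero fun y _ => cnt_eq_zero dY dY_pos k ℓ (by omega) y]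
    simp

theorem chi_coeff (w : YY → ℂ⟦X⟧) (hw : ∀ x, ∑ y, (X : ℂ⟦X⟧) ^ dY x y * w y = 1) (ℓ : ℕ) :
    (arr.chi ℓ : ℂ) = coeff ℓ (∑ y, w y) := by
  rw [chi_eq, map_sum]
  rw [Finset.sum_congr rfl fun y _ => coeff_weighting dY dY_pos dY_self w hw ℓ y]
  rw [Finset.sum_comm]
  push_cast
  refine Finset.sum_congr rfl fun k _ => ?_
  rw [Finset.mul_sum]

/-- the rational function -/
noncomputable def Phi (z : ℂ) : ℂ :=
  ∑ j ∈ Finset.range 5, (Nat.choose 4 j : ℂ) *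
    ((((1 - z) ^ 3 * (1 + z)⁻¹ * (1 + z ^ 2)⁻¹) ^ j * (2 * (1 + z ^ 2)⁻¹) ^ (4 - j)) *
      (2 * (1 - (-z ^ 3) ^ j * z ^ (4 - j))⁻¹ *
        ((j : ℂ) * ((1 + z ^ 3) * (1 - z ^ 3)⁻¹) + ((4 - j : ℕ) : ℂ) * ((1 - z) * (1 + z)⁻¹))))

theorem CS_one (r : ℝ) : CS r 1 = 1 := by
  apply Subtype.ext
  simp [CS]

theorem CS_neg_one (r : ℝ) : CS r (-1) = -1 := by
  apply Subtype.ext
  change (C (-1) : ℂ⟦X⟧) = -1
  rw [map_neg, map_one]

theorem exists_inv_sub {r : ℝ} (hr0 : 0 ≤ r) (hr : r < 1) (k : ℕ) (hk : 0 < k) :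
    ∃ G : SR r, G * (1 - XS r ^ k) = 1 := by
  obtain ⟨G, hG⟩ := exists_inv hr0 hr k hk 1 (by simp)
  refine ⟨G, ?_⟩
  rw [CS_one, one_mul] at hG
  rw [mul_comm]; exact hG

theorem exists_inv_add {r : ℝ} (hr0 : 0 ≤ r) (hr : r < 1) (k : ℕ) (hk : 0 < k) :
    ∃ G : SR r, G * (1 + XS r ^ k) = 1 := by
  obtain ⟨G, hG⟩ := exists_inv hr0 hr k hk (-1) (by simp)
  refine ⟨G, ?_⟩
  rw [CS_neg_one] at hG
  linear_combination hG

theorem main_eval {r : ℝ} (hr0 : 0 ≤ r) (hr : r < 1) {z : ℂ} (hz : ‖z‖ ≤ r) :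
    (Summable fun ℓ => ‖(arr.chi ℓ : ℂ) * z ^ ℓ‖) ∧ ∑' ℓ, (arr.chi ℓ : ℂ) * z ^ ℓ = Phi z := by
  obtain ⟨i1, h1⟩ := exists_inv_add hr0 hr 1 (by norm_num)
  obtain ⟨i2, h2⟩ := exists_inv_add hr0 hr 2 (by norm_num)
  obtain ⟨i3, h3⟩ := exists_inv_sub hr0 hr 3 (by norm_num)
  rw [pow_one] at h1
  have hD : ∀ j : ℕ, ∃ G : SR r, j ≤ 4 → G * (1 - (-XS r ^ 3) ^ j * XS r ^ (4 - j)) = 1 := by
    intro j
    rcases Nat.even_or_odd j with hj | hj
    · obtain ⟨G, hG⟩ := exists_inv_sub hr0 hr (4 + 2 * j) (by omega)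
      refine ⟨G, fun hj4 => ?_⟩
      rw [← hG, neg_pow, hj.neg_one_pow, one_mul, ← pow_mul, ← pow_add]
      congr 3
      omega
    · obtain ⟨G, hG⟩ := exists_inv_add hr0 hr (4 + 2 * j) (by omega)
      refine ⟨G, fun hj4 => ?_⟩
      rw [← hG, neg_pow, hj.neg_one_pow, ← pow_mul, neg_one_mul, neg_mul, ← pow_add,
        sub_neg_eq_add]
      congr 3
      omega
  choose D hD using hD
  have hh : (2 : SR r) * CS r (1 / 2) = 1 := by
    apply Subtype.ext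
    change (2 : ℂ⟦X⟧) * C (1 / 2) = 1
    have : (2 : ℂ⟦X⟧) = C (2 : ℂ) := by rw [map_ofNat]
    rw [this, ← map_mul]
    norm_num
  -- the weighting
  set w : YY → SR r := ww (XS r) i1 i2 i3 (CS r (1 / 2)) D with hw
  have hid := ww_id (XS r) i1 i2 i3 (CS r (1 / 2)) D h1 h2 h3 hh (fun j hj => hD j hj)
  have hid' : ∀ x, ∑ y, (X : ℂ⟦X⟧) ^ dY x y * (w y : ℂ⟦X⟧) = 1 := by
    intro x
    have := congrArg (fun P : SR r => (P : ℂ⟦X⟧)) (hid x)
    simp only [Subring.coe_one] at this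
    rw [← this]
    rw [AddSubmonoidClass.coe_finsetSum]
    rfl
  have hsum : ((∑ y, w y : SR r) : ℂ⟦X⟧) = ∑ y, (w y : ℂ⟦X⟧) :=
    AddSubmonoidClass.coe_finsetSum _ _
  have hchi : ∀ ℓ, (arr.chi ℓ : ℂ) = coeff ℓ ((∑ y, w y : SR r) : ℂ⟦X⟧) := by
    intro ℓ
    rw [hsum]
    exact chi_coeff (fun y => (w y : ℂ⟦X⟧)) hid' ℓ
  refine ⟨?_, ?_⟩
  · simp_rw [hchi]
    exact summable_eval (∑ y, w y : SR r).2 hz
  · simp_rw [hchi]
    rw [← ev_apply hz (∑ y, w y), hw, sum_ww (XS r) i1 i2 i3 (CS r (1 / 2)) D h2 hh, map_sum]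
    unfold Phi
    have e1 : ev hz i1 = (1 + z)⁻¹ := by
      have := congrArg (ev hz) h1
      rw [map_mul, map_add, map_one, ev_X] at this
      exact eq_inv_of_mul_eq_one_left this
    have e2 : ev hz i2 = (1 + z ^ 2)⁻¹ := by
      have := congrArg (ev hz) h2
      rw [map_mul, map_add, map_one, map_pow, ev_X] at this
      exact eq_inv_of_mul_eq_one_left this
    have e3 : ev hz i3 = (1 - z ^ 3)⁻¹ := by
      have := congrArg (ev hz) h3
      rw [map_mul, map_sub, map_one, map_pow, ev_X] at this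
      exact eq_inv_of_mul_eq_one_left this
    refine Finset.sum_congr rfl fun j hj => ?_
    have hj4 : j ≤ 4 := by have := Finset.mem_range.1 hj; omega
    have e4 : ev hz (D j) = (1 - (-z ^ 3) ^ j * z ^ (4 - j))⁻¹ := by
      have := congrArg (ev hz) (hD j hj4)
      rw [map_mul, map_sub, map_one, map_mul, map_pow, map_neg, map_pow, map_pow, ev_X] at this
      exact eq_inv_of_mul_eq_one_left this
    simp only [ss, uu, cond_true, cond_false, map_mul, map_add, map_pow, map_sub, map_one,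
      map_natCast, map_ofNat, e1, e2, e3, e4, ev_X]

end Pool.Agent.Lib.MP_46ca68_co
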