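import Pool.Agent.Lib.MP_46ca68_co.Defs

/-!
# Chambers as sign vectors; the path metric counts separating hyperplanes
-/

set_option autoImplicit false

open Filter Topology

namespace Pool.Agent.Lib.MP_46ca68_co

open Classical in
/-- The arrangement of the kernels of finitely many nonzero linear forms. -/
noncomputable def ofForms {d : ℕ} {ι : Type} [Fintype ι] (f : ι → Module.Dual ℝ (Fin d → ℝ))
    (hf : ∀ i, f i ≠ 0) : Arrangement d where
  hyps := Finset.univ.image fun i => LinearMap.ker (f i)
  codim_one := by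
    intro H hH
    obtain ⟨i, -, rfl⟩ := Finset.mem_image.1 hH
    have := Module.Dual.finrank_ker_add_one_of_ne_zero (hf i)
    simpa using this

section

variable {d : ℕ} {ι : Type} [Fintype ι] [DecidableEq ι] (f : ι → Module.Dual ℝ (Fin d → ℝ))
  (hf : ∀ i, f i ≠ 0)

theorem mem_compl_iff (x : Fin d → ℝ) : x ∈ (ofForms f hf).compl ↔ ∀ i, f i x ≠ 0 := by
  unfold Arrangement.compl ofForms
  simp [LinearMap.mem_ker]

/-- The sign vector of a point. -/
noncomputable def sg (x : Fin d → ℝ) : ι → Bool := fun i => decide (0 < f i x)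

theorem continuous_form (i : ι) : Continuous fun x : Fin d → ℝ => f i x :=
  LinearMap.continuous_of_finiteDimensional (f i)

theorem continuous_sg : Continuous fun x : (ofForms f hf).compl => sg f (x : Fin d → ℝ) := by
  refine continuous_pi fun i => ?_
  rw [continuous_discrete_rng]
  have hc : Continuous fun x : (ofForms f hf).compl => f i (x : Fin d → ℝ) :=
    (continuous_form f i).comp continuous_subtype_val
  intro b
  cases b with
  | false =>
    have : ((fun x : (ofForms f hf).compl => sg f (x : Fin d → ℝ) i) ⁻¹' {false})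
        = (fun x : (ofForms f hf).compl => f i (x : Fin d → ℝ)) ⁻¹' Set.Iio 0 := by
      ext x
      have hx := (mem_compl_iff f hf x).1 x.2 i
      simp only [sg, Set.mem_preimage, Set.mem_singleton_iff, decide_eq_false_iff_not,
        Set.mem_Iio, not_lt]
      exact ⟨fun h => lt_of_le_of_ne h hx, fun h => h.le⟩
    rw [this]
    exact isOpen_Iio.preimage hc
  | true =>
    have : ((fun x : (ofForms f hf).compl => sg f (x : Fin d → ℝ) i) ⁻¹' {true})
        = (fun x : (ofForms f hf).compl => f i (x : Fin d → ℝ)) ⁻¹' Set.Ioi 0 := by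
      ext x
      simp [sg]
    rw [this]
    exact isOpen_Ioi.preimage hc

/-- The sign vector of a chamber. -/
noncomputable def sgC : (ofForms f hf).Chamber → ι → Bool :=
  (continuous_sg f hf).connectedComponentsLift

theorem sgC_chamberOf (x : (ofForms f hf).compl) :
    sgC f hf ((ofForms f hf).chamberOf x) = sg f x :=
  (continuous_sg f hf).connectedComponentsLift_apply_coe x

theorem sg_pos_iff {x y : Fin d → ℝ} {i : ι} (h : sg f x i = sg f y i) :
    0 < f i x ↔ 0 < f i y := by
  simpa [sg] using h

theorem sg_segment {x y z : Fin d → ℝ} {i : ι} (h : sg f x i = sg f y i) (hx : f i x ≠ 0)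
    (hy : f i y ≠ 0) (hz : z ∈ segment ℝ x y) : f i z ≠ 0 ∧ sg f z i = sg f x i := by
  obtain ⟨a, b, ha, hb, hab, rfl⟩ := hz
  have h' := sg_pos_iff f h
  have e : f i (a • x + b • y) = a * f i x + b * f i y := by
    rw [map_add, map_smul, map_smul]; rfl
  rcases lt_or_gt_of_ne hx with hx' | hx'
  · have hy' : f i y < 0 := by
      rcases lt_or_gt_of_ne hy with h1 | h1
      · exact h1
      · exact absurd (h'.2 h1) (not_lt.2 hx'.le)
    have : a * f i x + b * f i y < 0 := by
      rcases eq_or_lt_of_le ha with h0 | h0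
      · have : b = 1 := by linarith
        rw [← h0, this]; linarith
      · nlinarith [mul_nonneg hb (neg_nonneg.2 hy'.le), mul_pos h0 (neg_pos.2 hx')]
    refine ⟨by rw [e]; exact this.ne, ?_⟩
    simp only [sg, e]
    rw [decide_eq_decide]
    exact ⟨fun h => absurd h (not_lt.2 this.le), fun h => absurd h (not_lt.2 hx'.le)⟩
  · have hy' : 0 < f i y := h'.1 hx'
    have : 0 < a * f i x + b * f i y := by
      rcases eq_or_lt_of_le ha with h0 | h0
      · have : b = 1 := by linarith
        rw [← h0, this]; linarith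
      · nlinarith [mul_nonneg hb hy'.le, mul_pos h0 hx']
    refine ⟨by rw [e]; exact this.ne', ?_⟩
    simp only [sg, e]
    rw [decide_eq_decide]
    exact ⟨fun _ => hx', fun _ => this⟩

theorem chamberOf_eq_of_sg {x y : (ofForms f hf).compl} (h : sg f (x : Fin d → ℝ) = sg f y) :
    (ofForms f hf).chamberOf x = (ofForms f hf).chamberOf y := by
  have hx := (mem_compl_iff f hf x).1 x.2
  have hy := (mem_compl_iff f hf y).1 y.2
  have hsub : segment ℝ (x : Fin d → ℝ) y ⊆ (ofForms f hf).compl := by
    intro z hz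
    rw [mem_compl_iff]
    exact fun i => (sg_segment f (congrFun h i) (hx i) (hy i) hz).1
  have hpre : IsPreconnected ((Subtype.val : (ofForms f hf).compl → Fin d → ℝ) ⁻¹'
      segment ℝ (x : Fin d → ℝ) y) := by
    rw [← Topology.IsInducing.subtypeVal.isPreconnected_image, Subtype.image_preimage_coe,
      Set.inter_eq_right.2 hsub]
    exact (convex_segment _ _).isPreconnected
  unfold Arrangement.chamberOf
  rw [ConnectedComponents.coe_eq_coe']
  exact hpre.subset_connectedComponent (right_mem_segment ℝ _ _) (left_mem_segment ℝ _ _)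

theorem sgC_injective : Function.Injective (sgC f hf) := by
  intro a b hab
  obtain ⟨x, rfl⟩ := ConnectedComponents.surjective_coe a
  obtain ⟨y, rfl⟩ := ConnectedComponents.surjective_coe b
  exact chamberOf_eq_of_sg f hf (by
    have h1 := sgC_chamberOf f hf x
    have h2 := sgC_chamberOf f hf y
    rw [← h1, ← h2]; exact hab)

theorem separates_iff (i : ι) (a b : (ofForms f hf).Chamber) :
    (ofForms f hf).Separates (LinearMap.ker (f i)) a b ↔ sgC f hf a i ≠ sgC f hf b i := by
  constructor
  · intro h heq
    obtain ⟨x, rfl⟩ := ConnectedComponents.surjective_coe a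
    obtain ⟨y, rfl⟩ := ConnectedComponents.surjective_coe b
    obtain ⟨z, hz, hzH⟩ := h x y rfl rfl
    have h1 := sgC_chamberOf f hf x
    have h2 := sgC_chamberOf f hf y
    have heq' : sg f (x : Fin d → ℝ) i = sg f y i := by
      rw [← congrFun h1 i, ← congrFun h2 i]; exact heq
    exact (sg_segment f heq' ((mem_compl_iff f hf x).1 x.2 i) ((mem_compl_iff f hf y).1 y.2 i)
      hz).1 (LinearMap.mem_ker.1 hzH)
  · rintro hne x y rfl rfl
    rw [sgC_chamberOf, sgC_chamberOf] at hne
    have hx := (mem_compl_iff f hf x).1 x.2 i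
    have hy := (mem_compl_iff f hf y).1 y.2 i
    have hne' : ¬ (0 < f i x ↔ 0 < f i y) := by
      intro h; exact hne (by simp [sg, h])
    -- opposite signs
    have hopp : f i (x : Fin d → ℝ) * f i (y : Fin d → ℝ) < 0 := by
      rcases lt_or_gt_of_ne hx with h1 | h1 <;> rcases lt_or_gt_of_ne hy with h2 | h2
      · exact absurd ⟨fun h => absurd h (not_lt.2 h1.le), fun h => absurd h (not_lt.2 h2.le)⟩ hne'
      · exact mul_neg_of_neg_of_pos h1 h2
      · exact mul_neg_of_pos_of_neg h1 h2
      · exact absurd ⟨fun _ => h2, fun _ => h1⟩ hne'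
    set u := f i (x : Fin d → ℝ) with hu
    set v := f i (y : Fin d → ℝ) with hv
    have huv : u - v ≠ 0 := by
      intro h
      have : u = v := by linarith
      rw [this] at hopp
      nlinarith [mul_self_nonneg v]
    refine ⟨(-v / (u - v)) • (x : Fin d → ℝ) + (u / (u - v)) • (y : Fin d → ℝ),
      ⟨-v / (u - v), u / (u - v), ?_, ?_, ?_, rfl⟩, ?_⟩
    · rcases lt_or_gt_of_ne hx with h1 | h1
      · have h2 : 0 < v := by by_contra hc; push Not at hc; nlinarith
        exact div_nonneg_of_nonpos (by linarith) (by linarith)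
      · have h2 : v < 0 := by by_contra hc; push Not at hc; nlinarith
        exact div_nonneg (by linarith) (by linarith)
    · rcases lt_or_gt_of_ne hx with h1 | h1
      · have h2 : 0 < v := by by_contra hc; push Not at hc; nlinarith
        exact div_nonneg_of_nonpos (by linarith) (by linarith)
      · have h2 : v < 0 := by by_contra hc; push Not at hc; nlinarith
        exact div_nonneg (by linarith) (by linarith)
    · field_simp
      ring
    · rw [LinearMap.mem_ker, map_add, map_smul, map_smul, ← hu, ← hv]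
      simp only [smul_eq_mul]
      field_simp
      ring

theorem adj_iff (hk : Function.Injective fun i => LinearMap.ker (f i))
    (a b : (ofForms f hf).Chamber) :
    (ofForms f hf).topeGraph.Adj a b ↔ ∃! i, sgC f hf a i ≠ sgC f hf b i := by
  have hmem : ∀ H : Submodule ℝ (Fin d → ℝ), H ∈ (ofForms f hf).hyps ↔
      ∃ i, LinearMap.ker (f i) = H := by
    intro H
    simp [ofForms]
  constructor
  · rintro ⟨H, ⟨hH, hs⟩, hu⟩
    obtain ⟨i, rfl⟩ := (hmem H).1 hH
    refine ⟨i, (separates_iff f hf i a b).1 hs, fun j hj => ?_⟩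
    exact hk (hu _ ⟨(hmem _).2 ⟨j, rfl⟩, (separates_iff f hf j a b).2 hj⟩)
  · rintro ⟨i, hi, hu⟩
    refine ⟨LinearMap.ker (f i), ⟨(hmem _).2 ⟨i, rfl⟩, (separates_iff f hf i a b).2 hi⟩, ?_⟩
    rintro H' ⟨hH', hs'⟩
    obtain ⟨j, rfl⟩ := (hmem H').1 hH'
    rw [hu j ((separates_iff f hf j a b).1 hs')]

/-- A vector on which finitely many nonzero forms do not vanish. -/
theorem exists_generic {κ : Type} [Finite κ] (g : κ → Module.Dual ℝ (Fin d → ℝ))
    (hg : ∀ k, g k ≠ 0) : ∃ v : Fin d → ℝ, ∀ k, g k v ≠ 0 := by
  classical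
  have := Fintype.ofFinite κ
  by_contra hc
  push Not at hc
  have htop : (⋃ p ∈ (Finset.univ.image fun k => LinearMap.ker (g k)), (p : Set (Fin d → ℝ)))
      = Set.univ := by
    ext v
    simp only [Set.mem_iUnion, Set.mem_univ, iff_true]
    obtain ⟨k, hk⟩ := hc v
    exact ⟨LinearMap.ker (g k), Finset.mem_image_of_mem _ (Finset.mem_univ k),
      LinearMap.mem_ker.2 hk⟩
  have hmem := Subspace.top_mem_of_biUnion_eq_univ htop
  obtain ⟨k, -, hk⟩ := Finset.mem_image.1 hmem
  exact hg k (LinearMap.ker_eq_top.1 hk)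

/-- Perturbation of a point: same sign vector and some further forms do not vanish. -/
theorem exists_perturb {κ : Type} [Finite κ] (g : κ → Module.Dual ℝ (Fin d → ℝ))
    (hg : ∀ k, g k ≠ 0) {x : Fin d → ℝ} (hx : ∀ i, f i x ≠ 0) :
    ∃ x' : Fin d → ℝ, (∀ i, f i x' ≠ 0) ∧ sg f x' = sg f x ∧ ∀ k, g k x' ≠ 0 := by
  obtain ⟨v, hv⟩ := exists_generic g hg
  have h1 : ∀ i, ∀ᶠ e : ℝ in 𝓝[>] 0, f i (x + e • v) ≠ 0 ∧
      (0 < f i (x + e • v) ↔ 0 < f i x) := by
    intro i
    have hc : Continuous fun e : ℝ => f i (x + e • v) :=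
      (continuous_form f i).comp (continuous_const.add (continuous_id.smul continuous_const))
    have h0 : f i (x + (0 : ℝ) • v) = f i x := by simp
    refine Filter.Eventually.filter_mono nhdsWithin_le_nhds ?_
    rcases lt_or_gt_of_ne (hx i) with h | h
    · have : ∀ᶠ e : ℝ in 𝓝 0, f i (x + e • v) < 0 :=
        hc.continuousAt.eventually_lt continuousAt_const (by rw [h0]; exact h)
      filter_upwards [this] with e he
      exact ⟨he.ne, fun h' => absurd h' (not_lt.2 he.le), fun h' => absurd h' (not_lt.2 h.le)⟩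
    · have : ∀ᶠ e : ℝ in 𝓝 0, 0 < f i (x + e • v) :=
        continuousAt_const.eventually_lt hc.continuousAt (by rw [h0]; exact h)
      filter_upwards [this] with e he
      exact ⟨he.ne', fun _ => h, fun _ => he⟩
  have h2 : ∀ k, ∀ᶠ e : ℝ in 𝓝[>] 0, g k (x + e • v) ≠ 0 := by
    intro k
    by_cases h : g k x = 0
    · filter_upwards [self_mem_nhdsWithin] with e he
      have he' : (0 : ℝ) < e := he
      rw [map_add, map_smul, h, zero_add, smul_eq_mul]
      exact mul_ne_zero he'.ne' (hv k)
    · refine Filter.Eventually.filter_mono nhdsWithin_le_nhds ?_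
      have hc : Continuous fun e : ℝ => g k (x + e • v) :=
        (LinearMap.continuous_of_finiteDimensional (g k)).comp
          (continuous_const.add (continuous_id.smul continuous_const))
      exact hc.continuousAt.eventually_ne (by simpa using h)
  obtain ⟨e, he1, he2⟩ := ((Filter.eventually_all.2 h1).and (Filter.eventually_all.2 h2)).exists
  exact ⟨x + e • v, fun i => (he1 i).1, by
    funext i; simp only [sg]; rw [decide_eq_decide]; exact (he1 i).2, he2⟩

/-- One step from `x` towards `y` in the tope graph. -/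
theorem exists_step (hk : Function.Injective fun i => LinearMap.ker (f i))
    {x y : Fin d → ℝ} (hx : ∀ i, f i x ≠ 0) (hy : ∀ i, f i y ≠ 0) (hne : sg f x ≠ sg f y) :
    ∃ (z : Fin d → ℝ) (i : ι), (∀ j, f j z ≠ 0) ∧ sg f x i ≠ sg f y i ∧
      sg f z = Function.update (sg f x) i (sg f y i) := by
  -- make the crossing parameters distinct
  obtain ⟨x', hx', hsx, hg⟩ := exists_perturb f
    (κ := {p : ι × ι // p.1 ≠ p.2})
    (fun p => f p.1.2 y • f p.1.1 - f p.1.1 y • f p.1.2) (by
      rintro ⟨⟨i, j⟩, hij⟩ h
      simp only at h hij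
      apply hij
      apply hk
      ext v
      have h1 := LinearMap.congr_fun h v
      simp only [LinearMap.sub_apply, LinearMap.smul_apply, smul_eq_mul,
        LinearMap.zero_apply] at h1
      rw [LinearMap.mem_ker, LinearMap.mem_ker]
      constructor
      · intro h2
        rw [h2, mul_zero, zero_sub, neg_eq_zero] at h1
        exact (mul_eq_zero.1 h1).resolve_left (hy i)
      · intro h2
        rw [h2, mul_zero, sub_zero] at h1
        exact (mul_eq_zero.1 h1).resolve_left (hy j)) hx
  rw [← hsx] at hne ⊢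
  set D : Finset ι := Finset.univ.filter fun i => sg f x' i ≠ sg f y i with hD
  have hDne : D.Nonempty := by
    by_contra hc
    apply hne
    funext i
    by_contra h
    exact hc ⟨i, by simp [hD, h]⟩
  set τ : ι → ℝ := fun i => f i x' / (f i x' - f i y) with hτ
  have hopp : ∀ i ∈ D, (0 < f i x' ∧ f i y < 0) ∨ (f i x' < 0 ∧ 0 < f i y) := by
    intro i hi
    have hi' : sg f x' i ≠ sg f y i := (Finset.mem_filter.1 hi).2
    rcases lt_or_gt_of_ne (hx' i) with h1 | h1 <;> rcases lt_or_gt_of_ne (hy i) with h2 | h2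
    · exact absurd (by simp [sg, not_lt.2 h1.le, not_lt.2 h2.le]) hi'
    · exact Or.inr ⟨h1, h2⟩
    · exact Or.inl ⟨h1, h2⟩
    · exact absurd (by simp [sg, h1, h2]) hi'
  have hτ1 : ∀ i ∈ D, 0 < τ i ∧ τ i < 1 := by
    intro i hi
    rcases hopp i hi with ⟨h1, h2⟩ | ⟨h1, h2⟩
    · constructor
      · exact div_pos h1 (by linarith)
      · rw [hτ]; simp only; rw [div_lt_one (by linarith)]; linarith
    · constructor
      · exact div_pos_of_neg_of_neg h1 (by linarith)
      · rw [hτ]; simp only; rw [div_lt_one_of_neg (by linarith)]; linarith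
  obtain ⟨i0, hi0, hmin⟩ := D.exists_min_image τ hDne
  have hlt : ∀ j ∈ D, j ≠ i0 → τ i0 < τ j := by
    intro j hj hji
    refine lt_of_le_of_ne (hmin j hj) ?_
    intro heq
    have hne1 : f i0 x' - f i0 y ≠ 0 := by
      rcases hopp i0 hi0 with ⟨h1, h2⟩ | ⟨h1, h2⟩
      · linarith
      · intro h; linarith
    have hne2 : f j x' - f j y ≠ 0 := by
      rcases hopp j hj with ⟨h1, h2⟩ | ⟨h1, h2⟩
      · linarith
      · intro h; linarith
    have h3 := hg ⟨(i0, j), fun h => hji h.symm⟩
    apply h3
    simp only [LinearMap.sub_apply, LinearMap.smul_apply, smul_eq_mul]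
    simp only [hτ] at heq
    rw [div_eq_div_iff hne1 hne2] at heq
    linarith
  have hev : ∀ᶠ t : ℝ in 𝓝[>] (τ i0), t < 1 ∧ ∀ j : ι, (j ∈ D ∧ j ≠ i0) → t < τ j := by
    refine (Filter.Eventually.filter_mono nhdsWithin_le_nhds
      (eventually_lt_nhds (hτ1 i0 hi0).2)).and ?_
    rw [Filter.eventually_all]
    intro j
    by_cases h : j ∈ D ∧ j ≠ i0
    · exact (Filter.Eventually.filter_mono nhdsWithin_le_nhds
        (eventually_lt_nhds (hlt j h.1 h.2))).mono fun t ht _ => ht
    · exact Filter.Eventually.of_forall fun t h' => absurd h' h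
  obtain ⟨t, ⟨ht1, htj⟩, ht0⟩ := (hev.and self_mem_nhdsWithin).exists
  have ht0' : τ i0 < t := ht0
  have htpos : 0 < t := lt_trans (hτ1 i0 hi0).1 ht0'
  have hval : ∀ i, f i ((1 - t) • x' + t • y) = (1 - t) * f i x' + t * f i y := by
    intro i
    rw [map_add, map_smul, map_smul]; rfl
  -- signs of the new point
  have hsame : ∀ i, i ∉ D → f i ((1 - t) • x' + t • y) ≠ 0 ∧
      sg f ((1 - t) • x' + t • y) i = sg f x' i := by
    intro i hi
    have heq : sg f x' i = sg f y i := by
      by_contra h
      exact hi (by simp [hD, h])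
    exact sg_segment f heq (hx' i) (hy i) ⟨1 - t, t, by linarith, htpos.le, by ring, rfl⟩
  have hother : ∀ i ∈ D, i ≠ i0 → f i ((1 - t) • x' + t • y) ≠ 0 ∧
      sg f ((1 - t) • x' + t • y) i = sg f x' i := by
    intro i hi hne'
    have h1 := htj i ⟨hi, hne'⟩
    simp only [hτ] at h1
    rcases hopp i hi with ⟨h2, h3⟩ | ⟨h2, h3⟩
    · rw [lt_div_iff₀ (by linarith)] at h1
      have h4 : 0 < (1 - t) * f i x' + t * f i y := by nlinarith
      exact ⟨by rw [hval]; exact h4.ne', by simp only [sg]; rw [hval]; simp [h4, h2]⟩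
    · rw [lt_div_iff_of_neg (by linarith)] at h1
      have h4 : (1 - t) * f i x' + t * f i y < 0 := by nlinarith
      exact ⟨by rw [hval]; exact h4.ne, by
        simp only [sg]; rw [hval]; simp [not_lt.2 h4.le, not_lt.2 h2.le]⟩
  have hcross : f i0 ((1 - t) • x' + t • y) ≠ 0 ∧
      sg f ((1 - t) • x' + t • y) i0 = sg f y i0 := by
    simp only [hτ] at ht0'
    rcases hopp i0 hi0 with ⟨h2, h3⟩ | ⟨h2, h3⟩
    · rw [div_lt_iff₀ (by linarith)] at ht0'
      have h4 : (1 - t) * f i0 x' + t * f i0 y < 0 := by nlinarith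
      exact ⟨by rw [hval]; exact h4.ne, by
        simp only [sg]; rw [hval]; simp [not_lt.2 h4.le, not_lt.2 h3.le]⟩
    · rw [div_lt_iff_of_neg (by linarith)] at ht0'
      have h4 : 0 < (1 - t) * f i0 x' + t * f i0 y := by nlinarith
      exact ⟨by rw [hval]; exact h4.ne', by simp only [sg]; rw [hval]; simp [h4, h3]⟩
  refine ⟨(1 - t) • x' + t • y, i0, ?_, (Finset.mem_filter.1 hi0).2, ?_⟩
  · intro j
    by_cases hj : j = i0
    · subst hj; exact hcross.1
    · by_cases hjD : j ∈ D
      · exact (hother j hjD hj).1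
      · exact (hsame j hjD).1
  · funext j
    by_cases hj : j = i0
    · subst hj; rw [Function.update_self]; exact hcross.2
    · rw [Function.update_of_ne hj]
      by_cases hjD : j ∈ D
      · exact (hother j hjD hj).2
      · exact (hsame j hjD).2

theorem exists_walk (hk : Function.Injective fun i => LinearMap.ker (f i)) (n : ℕ) :
    ∀ a b : (ofForms f hf).Chamber, hammingDist (sgC f hf a) (sgC f hf b) = n →
      ∃ w : (ofForms f hf).topeGraph.Walk a b, w.length = n := by
  induction n with
  | zero =>
    intro a b h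
    have := sgC_injective f hf (hammingDist_eq_zero.1 h)
    subst this
    exact ⟨SimpleGraph.Walk.nil, rfl⟩
  | succ n ih =>
    intro a b h
    obtain ⟨x, rfl⟩ := ConnectedComponents.surjective_coe a
    obtain ⟨y, rfl⟩ := ConnectedComponents.surjective_coe b
    change hammingDist (sgC f hf ((ofForms f hf).chamberOf x))
      (sgC f hf ((ofForms f hf).chamberOf y)) = n + 1 at h
    change ∃ w : (ofForms f hf).topeGraph.Walk ((ofForms f hf).chamberOf x)
      ((ofForms f hf).chamberOf y), w.length = n + 1
    have hx := (mem_compl_iff f hf x).1 x.2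
    have hy := (mem_compl_iff f hf y).1 y.2
    have hne : sg f (x : Fin d → ℝ) ≠ sg f y := by
      intro he
      rw [sgC_chamberOf, sgC_chamberOf, he, hammingDist_self] at h
      omega
    obtain ⟨z, i, hz, hi, hsz⟩ := exists_step f hk hx hy hne
    let z' : (ofForms f hf).compl := ⟨z, (mem_compl_iff f hf z).2 hz⟩
    have hz' : sgC f hf ((ofForms f hf).chamberOf z') = Function.update (sg f x) i (sg f y i) := by
      rw [sgC_chamberOf]; exact hsz
    have hadj : (ofForms f hf).topeGraph.Adj ((ofForms f hf).chamberOf x)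
        ((ofForms f hf).chamberOf z') := by
      rw [adj_iff f hf hk, hz', sgC_chamberOf]
      refine ⟨i, by simpa using hi, ?_⟩
      intro j hj
      by_contra hne'
      apply hj
      rw [Function.update_of_ne hne']
    have hd : hammingDist (sgC f hf ((ofForms f hf).chamberOf z'))
        (sgC f hf ((ofForms f hf).chamberOf y)) = n := by
      rw [sgC_chamberOf, sgC_chamberOf] at h
      rw [hz', sgC_chamberOf]
      unfold hammingDist at h ⊢
      have hins : (Finset.univ.filter fun j => sg f (x : Fin d → ℝ) j ≠ sg f y j)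
          = insert i (Finset.univ.filter fun j =>
            Function.update (sg f (x : Fin d → ℝ)) i (sg f y i) j ≠ sg f y j) := by
        ext j
        simp only [Finset.mem_filter, Finset.mem_univ, true_and, Finset.mem_insert]
        by_cases hj : j = i
        · subst hj; simp [hi]
        · rw [Function.update_of_ne hj]; simp [hj]
      rw [hins, Finset.card_insert_of_notMem (by simp)] at h
      omega
    obtain ⟨w, hw⟩ := ih _ _ hd
    exact ⟨SimpleGraph.Walk.cons hadj w, by rw [SimpleGraph.Walk.length_cons, hw]⟩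

theorem hamming_le_length (hk : Function.Injective fun i => LinearMap.ker (f i))
    {a b : (ofForms f hf).Chamber} (w : (ofForms f hf).topeGraph.Walk a b) :
    hammingDist (sgC f hf a) (sgC f hf b) ≤ w.length := by
  induction w with
  | nil => simp
  | @cons u v w' hadj p ih =>
    rw [SimpleGraph.Walk.length_cons]
    have h1 := hammingDist_triangle (sgC f hf u) (sgC f hf v) (sgC f hf w')
    have h2 : hammingDist (sgC f hf u) (sgC f hf v) = 1 := by
      obtain ⟨i, hi, hu⟩ := (adj_iff f hf hk u v).1 hadj
      unfold hammingDist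
      rw [Finset.card_eq_one]
      refine ⟨i, ?_⟩
      ext j
      simp only [Finset.mem_filter, Finset.mem_univ, true_and, Finset.mem_singleton]
      exact ⟨fun h => hu j h, fun h => by rw [h]; exact hi⟩
    omega

/-- The path metric of the tope graph is the number of separating hyperplanes. -/
theorem dist_eq_hamming (hk : Function.Injective fun i => LinearMap.ker (f i))
    (a b : (ofForms f hf).Chamber) :
    (ofForms f hf).dist a b = hammingDist (sgC f hf a) (sgC f hf b) := by
  obtain ⟨w, hw⟩ := exists_walk f hf hk _ a b rfl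
  unfold Arrangement.dist
  apply le_antisymm
  · rw [← hw]; exact SimpleGraph.dist_le w
  · obtain ⟨w', hw'⟩ := w.reachable.exists_walk_length_eq_dist
    rw [← hw']
    exact hamming_le_length f hf hk w'

end

end Pool.Agent.Lib.MP_46ca68_co
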