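import Pool.Agent.Lib.MP_46ca68_co.Gen

/-!
# Behaviour of the generating function at `t = 1` and at `t = i`
-/

set_option autoImplicit false

open Filter Topology

namespace Pool.Agent.Lib.MP_46ca68_co

theorem I_pow_three : Complex.I ^ 3 = -Complex.I := Complex.I_pow_three

/-- one summand of `Phi` in terms of its constituents -/
noncomputable def term (j : ℕ) (S1 S0 D U1 U0 : ℂ) : ℂ :=
  (Nat.choose 4 j : ℂ) * ((S1 ^ j * S0 ^ (4 - j)) * (2 * D * ((j : ℂ) * U1 + ((4 - j : ℕ) : ℂ) * U0)))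

theorem Phi_eq (z : ℂ) : Phi z = ∑ j ∈ Finset.range 5,
    term j ((1 - z) ^ 3 * (1 + z)⁻¹ * (1 + z ^ 2)⁻¹) (2 * (1 + z ^ 2)⁻¹)
      (1 - (-z ^ 3) ^ j * z ^ (4 - j))⁻¹ ((1 + z ^ 3) * (1 - z ^ 3)⁻¹) ((1 - z) * (1 + z)⁻¹) := rfl

theorem term_scale (j : ℕ) (hj : j ≤ 4) (c S1 S0 D U1 U0 : ℂ) :
    c ^ 5 * term j S1 S0 D U1 U0 = term j (c * S1) (c * S0) (c * D) U1 U0 := by
  have hp : c ^ 5 = c ^ j * c ^ (4 - j) * c := by
    rw [← pow_add, ← pow_succ]; congr 1; omega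
  unfold term
  rw [hp, mul_pow, mul_pow]
  ring

/-! ### at `t = i` -/

/-- the function with which `(1-r)^5 Phi (-ir)` agrees -/
noncomputable def gI (r : ℝ) : ℂ := ∑ j ∈ Finset.range 5,
  term j ((1 + Complex.I * r) ^ 3 * (1 - Complex.I * r)⁻¹ * (1 + r : ℂ)⁻¹) (2 * (1 + r : ℂ)⁻¹)
    (∑ i ∈ Finset.range (4 + 2 * j), (r : ℂ) ^ i)⁻¹
    ((1 + Complex.I * r ^ 3) * (1 - Complex.I * r ^ 3)⁻¹)
    ((1 + Complex.I * r) * (1 - Complex.I * r)⁻¹)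

theorem geom_inv (r : ℝ) (hr0 : 0 < r) (hr : r < 1) (m : ℕ) (hm : 0 < m) :
    (1 - (r : ℂ)) * (1 - (r : ℂ) ^ m)⁻¹ = (∑ i ∈ Finset.range m, (r : ℂ) ^ i)⁻¹ := by
  have h1 : (1 - (r : ℂ)) ≠ 0 := by
    intro h
    have : (1 : ℂ) = r := by linear_combination h
    have := congrArg Complex.re this
    simp at this
    linarith
  have h2 : (∑ i ∈ Finset.range m, (r : ℂ) ^ i) * ((r : ℂ) - 1) = (r : ℂ) ^ m - 1 :=
    geom_sum_mul _ _
  have h3 : (1 - (r : ℂ) ^ m) = (∑ i ∈ Finset.range m, (r : ℂ) ^ i) * (1 - (r : ℂ)) := by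
    linear_combination h2
  rw [h3, mul_inv, mul_comm _ (1 - (r : ℂ))⁻¹, ← mul_assoc, mul_inv_cancel₀ h1, one_mul]

theorem gI_eq (r : ℝ) (hr0 : 0 < r) (hr : r < 1) :
    (1 - (r : ℂ)) ^ 5 * Phi (-(Complex.I * r)) = gI r := by
  have hI2 : Complex.I ^ 2 = -1 := Complex.I_sq
  have hI3 : Complex.I ^ 3 = -Complex.I := Complex.I_pow_three
  rw [Phi_eq, gI, Finset.mul_sum]
  refine Finset.sum_congr rfl fun j hj => ?_
  have hj4 : j ≤ 4 := by have := Finset.mem_range.1 hj; omega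
  have hne : (1 - (r : ℂ)) ≠ 0 := by
    intro h
    have : (1 : ℂ) = r := by linear_combination h
    have := congrArg Complex.re this
    simp at this
    linarith
  have z2 : (-(Complex.I * r)) ^ 2 = -((r : ℂ) ^ 2) := by
    rw [neg_sq, mul_pow, hI2]; ring
  have z3 : (-(Complex.I * r)) ^ 3 = Complex.I * (r : ℂ) ^ 3 := by
    have : (-(Complex.I * r)) ^ 3 = -(Complex.I ^ 3 * (r : ℂ) ^ 3) := by ring
    rw [this, hI3]; ring
  have hs : (1 + -((r : ℂ) ^ 2)) = (1 - r) * (1 + r) := by ring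
  have hD : (-(Complex.I * (r : ℂ) ^ 3)) ^ j * (-(Complex.I * r)) ^ (4 - j)
      = (r : ℂ) ^ (4 + 2 * j) := by
    have e1 : (-(Complex.I * (r : ℂ) ^ 3)) = (-(Complex.I)) * (r : ℂ) ^ 3 := by ring
    have e2 : (-(Complex.I * (r : ℂ))) = (-(Complex.I)) * (r : ℂ) := by ring
    rw [e1, e2, mul_pow, mul_pow, ← pow_mul]
    have e3 : (-Complex.I) ^ j * (-Complex.I) ^ (4 - j) = 1 := by
      rw [← pow_add, show j + (4 - j) = 4 by omega]
      have : (-Complex.I) ^ 4 = (Complex.I ^ 2) ^ 2 := by ring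
      rw [this, hI2]; norm_num
    calc (-Complex.I) ^ j * (r : ℂ) ^ (3 * j) * ((-Complex.I) ^ (4 - j) * (r : ℂ) ^ (4 - j))
        = ((-Complex.I) ^ j * (-Complex.I) ^ (4 - j)) *
          ((r : ℂ) ^ (3 * j) * (r : ℂ) ^ (4 - j)) := by ring
      _ = (r : ℂ) ^ (4 + 2 * j) := by
          rw [e3, one_mul, ← pow_add]; congr 1; omega
  have m1 : ((1 - (r : ℂ)) * ((1 - -(Complex.I * r)) ^ 3 * (1 + -(Complex.I * r))⁻¹ *
      ((1 - (r : ℂ)) * (1 + r))⁻¹)) = (1 + Complex.I * r) ^ 3 * (1 - Complex.I * r)⁻¹ *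
        (1 + r : ℂ)⁻¹ := by
    rw [mul_inv, sub_neg_eq_add, ← sub_eq_add_neg]
    field_simp
  have m0 : (1 - (r : ℂ)) * (2 * ((1 - (r : ℂ)) * (1 + r))⁻¹) = 2 * (1 + r : ℂ)⁻¹ := by
    rw [mul_inv]
    field_simp
  have u0 : (1 - -(Complex.I * (r : ℂ))) * (1 + -(Complex.I * r))⁻¹
      = (1 + Complex.I * r) * (1 - Complex.I * r)⁻¹ := by
    rw [sub_neg_eq_add, ← sub_eq_add_neg]
  rw [z3, z2, hD, hs, term_scale j hj4, m1, m0, u0, geom_inv r hr0 hr (4 + 2 * j) (by omega)]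

theorem gI_continuousAt : ContinuousAt gI 1 := by
  have h1 : (1 - Complex.I) ≠ 0 := by
    intro h
    have := congrArg Complex.re h
    simp at this
  unfold gI term
  refine tendsto_finsetSum _ fun j _ => ?_
  have c0 : ContinuousAt (fun r : ℝ => (r : ℂ)) 1 := Complex.continuous_ofReal.continuousAt
  have d1 : ContinuousAt (fun r : ℝ => (1 - Complex.I * (r : ℂ))⁻¹) 1 :=
    (continuousAt_const.sub (continuousAt_const.mul c0)).inv₀ (by simpa using h1)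
  have d3 : ContinuousAt (fun r : ℝ => (1 - Complex.I * (r : ℂ) ^ 3)⁻¹) 1 :=
    (continuousAt_const.sub (continuousAt_const.mul (c0.pow 3))).inv₀ (by simpa using h1)
  have d2 : ContinuousAt (fun r : ℝ => (1 + (r : ℂ))⁻¹) 1 :=
    (continuousAt_const.add c0).inv₀ (by norm_num)
  have dg : ContinuousAt (fun r : ℝ => (∑ i ∈ Finset.range (4 + 2 * j), (r : ℂ) ^ i)⁻¹) 1 := by
    refine ContinuousAt.inv₀ ?_ ?_
    · exact tendsto_finsetSum _ fun i _ => c0.pow i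
    · simp only [Complex.ofReal_one, one_pow, Finset.sum_const, Finset.card_range, nsmul_eq_mul,
        mul_one]
      have : (4 + 2 * j : ℕ) ≠ 0 := by omega
      exact_mod_cast this
  have n1 : ContinuousAt (fun r : ℝ => 1 + Complex.I * (r : ℂ)) 1 :=
    continuousAt_const.add (continuousAt_const.mul c0)
  have n3 : ContinuousAt (fun r : ℝ => 1 + Complex.I * (r : ℂ) ^ 3) 1 :=
    continuousAt_const.add (continuousAt_const.mul (c0.pow 3))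
  exact continuousAt_const.mul
    (((((n1.pow 3).mul d1).mul d2).pow j).mul ((continuousAt_const.mul d2).pow (4 - j)) |>.mul
      ((continuousAt_const.mul dg).mul
        ((continuousAt_const.mul (n3.mul d3)).add (continuousAt_const.mul (n1.mul d1)))))

theorem gI_one : gI 1 = 2 / 15 * Complex.I := by
  have hI2 : Complex.I ^ 2 = -1 := Complex.I_sq
  have h1 : (1 - Complex.I) ≠ 0 := by
    intro h
    have := congrArg Complex.re h
    simp at this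
  have hinv : (1 - Complex.I)⁻¹ = (1 + Complex.I) / 2 := by
    rw [inv_eq_iff_eq_inv, inv_div, eq_div_iff]
    · linear_combination -hI2
    · intro h
      have := congrArg Complex.re h
      simp at this
  have hu : (1 + Complex.I) * (1 - Complex.I)⁻¹ = Complex.I := by
    rw [hinv]; linear_combination (1 / 2) * hI2
  have hS : (1 + Complex.I) ^ 3 * (1 - Complex.I)⁻¹ * (1 + 1 : ℂ)⁻¹ = -1 := by
    have e : (1 + Complex.I) ^ 3 * (1 - Complex.I)⁻¹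
        = (1 + Complex.I) ^ 2 * ((1 + Complex.I) * (1 - Complex.I)⁻¹) := by ring
    rw [e, hu]
    have : (1 + Complex.I) ^ 2 * Complex.I = -2 := by
      linear_combination (Complex.I + 2) * hI2
    rw [this]; norm_num
  unfold gI
  simp only [Complex.ofReal_one, one_pow, mul_one, Finset.sum_const, Finset.card_range,
    nsmul_eq_mul, hu, hS]
  simp only [Finset.sum_range_succ, Finset.sum_range_zero, term]
  norm_num [Nat.choose]
  ring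

/-! ### at `t = 1` -/

theorem ofReal_ne (r : ℝ) (hr : r < 1) : (1 - (r : ℂ)) ≠ 0 := by
  intro h
  have : (1 : ℂ) = r := by linear_combination h
  have := congrArg Complex.re this
  simp at this
  linarith

/-- the function with which `(1-r)^5 Phi (-r)` agrees -/
noncomputable def gR (r : ℝ) : ℂ :=
  (1 - (r : ℂ)) ^ 3 * term 0 ((1 + (r : ℂ)) ^ 3 * (1 + (r : ℂ) ^ 2)⁻¹) (2 * (1 + (r : ℂ) ^ 2)⁻¹)
    (∑ i ∈ Finset.range 4, (r : ℂ) ^ i)⁻¹
    ((1 - (r : ℂ)) * ((1 - (r : ℂ) ^ 3) * (1 + (r : ℂ) ^ 3)⁻¹)) (1 + r)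
  + (1 - (r : ℂ)) ^ 3 * term 1 ((1 + (r : ℂ)) ^ 3 * (1 + (r : ℂ) ^ 2)⁻¹)
    (2 * (1 + (r : ℂ) ^ 2)⁻¹) (1 + (r : ℂ) ^ 6)⁻¹
    ((1 - (r : ℂ)) * ((1 - (r : ℂ) ^ 3) * (1 + (r : ℂ) ^ 3)⁻¹)) (1 + r)
  + (1 - (r : ℂ)) * term 2 ((1 + (r : ℂ)) ^ 3 * (1 + (r : ℂ) ^ 2)⁻¹) (2 * (1 + (r : ℂ) ^ 2)⁻¹)
    (∑ i ∈ Finset.range 8, (r : ℂ) ^ i)⁻¹
    ((1 - (r : ℂ)) * ((1 - (r : ℂ) ^ 3) * (1 + (r : ℂ) ^ 3)⁻¹)) (1 + r)
  + (1 - (r : ℂ)) * term 3 ((1 + (r : ℂ)) ^ 3 * (1 + (r : ℂ) ^ 2)⁻¹) (2 * (1 + (r : ℂ) ^ 2)⁻¹)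
    (1 + (r : ℂ) ^ 10)⁻¹
    ((1 - (r : ℂ)) * ((1 - (r : ℂ) ^ 3) * (1 + (r : ℂ) ^ 3)⁻¹)) (1 + r)
  + term 4 ((1 + (r : ℂ)) ^ 3 * (1 + (r : ℂ) ^ 2)⁻¹) (2 * (1 + (r : ℂ) ^ 2)⁻¹)
    (∑ i ∈ Finset.range 12, (r : ℂ) ^ i)⁻¹
    ((1 - (r : ℂ) ^ 3) * (1 + (r : ℂ) ^ 3)⁻¹) 0

theorem gR_eq (r : ℝ) (hr0 : 0 < r) (hr : r < 1) :
    (1 - (r : ℂ)) ^ 5 * Phi (-(r : ℂ)) = gR r := by
  have hne := ofReal_ne r hr
  rw [Phi_eq]
  have z2 : (-(r : ℂ)) ^ 2 = (r : ℂ) ^ 2 := by ring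
  have z3 : (-(r : ℂ)) ^ 3 = -((r : ℂ) ^ 3) := by ring
  rw [z2, z3, neg_neg]
  simp only [Finset.sum_range_succ, Finset.sum_range_zero, zero_add]
  have D0 : (1 - ((r : ℂ) ^ 3) ^ 0 * (-(r : ℂ)) ^ (4 - 0))⁻¹
      = (1 - (r : ℂ))⁻¹ * (∑ i ∈ Finset.range 4, (r : ℂ) ^ i)⁻¹ := by
    rw [← geom_inv r hr0 hr 4 (by norm_num), ← mul_assoc, inv_mul_cancel₀ hne, one_mul]
    congr 1; ring
  have D1 : (1 - ((r : ℂ) ^ 3) ^ 1 * (-(r : ℂ)) ^ (4 - 1))⁻¹ = (1 + (r : ℂ) ^ 6)⁻¹ := by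
    congr 1; ring
  have D2 : (1 - ((r : ℂ) ^ 3) ^ 2 * (-(r : ℂ)) ^ (4 - 2))⁻¹
      = (1 - (r : ℂ))⁻¹ * (∑ i ∈ Finset.range 8, (r : ℂ) ^ i)⁻¹ := by
    rw [← geom_inv r hr0 hr 8 (by norm_num), ← mul_assoc, inv_mul_cancel₀ hne, one_mul]
    congr 1; ring
  have D3 : (1 - ((r : ℂ) ^ 3) ^ 3 * (-(r : ℂ)) ^ (4 - 3))⁻¹ = (1 + (r : ℂ) ^ 10)⁻¹ := by
    congr 1; ring
  have D4 : (1 - ((r : ℂ) ^ 3) ^ 4 * (-(r : ℂ)) ^ (4 - 4))⁻¹
      = (1 - (r : ℂ))⁻¹ * (∑ i ∈ Finset.range 12, (r : ℂ) ^ i)⁻¹ := by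
    rw [← geom_inv r hr0 hr 12 (by norm_num), ← mul_assoc, inv_mul_cancel₀ hne, one_mul]
    congr 1; ring
  rw [D0, D1, D2, D3, D4]
  unfold gR term
  rw [show (1 + -(r : ℂ)) = 1 - r by ring, show (1 - -(r : ℂ)) = 1 + r by ring,
    show (1 + -(r : ℂ) ^ 3) = 1 - (r : ℂ) ^ 3 by ring,
    show (1 - -(r : ℂ) ^ 3) = 1 + (r : ℂ) ^ 3 by ring]
  norm_num [Nat.choose]
  field_simp

theorem term_continuousAt (j : ℕ) {S1 S0 D U1 U0 : ℝ → ℂ} (h1 : ContinuousAt S1 1)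
    (h2 : ContinuousAt S0 1) (h3 : ContinuousAt D 1) (h4 : ContinuousAt U1 1)
    (h5 : ContinuousAt U0 1) :
    ContinuousAt (fun r => term j (S1 r) (S0 r) (D r) (U1 r) (U0 r)) 1 := by
  unfold term
  exact continuousAt_const.mul (((h1.pow j).mul (h2.pow (4 - j))).mul
    ((continuousAt_const.mul h3).mul
      ((continuousAt_const.mul h4).add (continuousAt_const.mul h5))))

theorem gR_tendsto : Tendsto gR (𝓝 1) (𝓝 0) := by
  have c0 : ContinuousAt (fun r : ℝ => (r : ℂ)) 1 := Complex.continuous_ofReal.continuousAt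
  have s : ContinuousAt (fun r : ℝ => 1 - (r : ℂ)) 1 := continuousAt_const.sub c0
  have i2 : ContinuousAt (fun r : ℝ => (1 + (r : ℂ) ^ 2)⁻¹) 1 :=
    (continuousAt_const.add (c0.pow 2)).inv₀ (by norm_num)
  have i3 : ContinuousAt (fun r : ℝ => (1 + (r : ℂ) ^ 3)⁻¹) 1 :=
    (continuousAt_const.add (c0.pow 3)).inv₀ (by norm_num)
  have i6 : ContinuousAt (fun r : ℝ => (1 + (r : ℂ) ^ 6)⁻¹) 1 :=
    (continuousAt_const.add (c0.pow 6)).inv₀ (by norm_num)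
  have i10 : ContinuousAt (fun r : ℝ => (1 + (r : ℂ) ^ 10)⁻¹) 1 :=
    (continuousAt_const.add (c0.pow 10)).inv₀ (by norm_num)
  have dg : ∀ m : ℕ, 0 < m →
      ContinuousAt (fun r : ℝ => (∑ i ∈ Finset.range m, (r : ℂ) ^ i)⁻¹) 1 := by
    intro m hm
    refine ContinuousAt.inv₀ ?_ ?_
    · exact tendsto_finsetSum _ fun i _ => c0.pow i
    · simp only [Complex.ofReal_one, one_pow, Finset.sum_const, Finset.card_range, nsmul_eq_mul,
        mul_one]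
      exact_mod_cast hm.ne'
  have a1 : ContinuousAt (fun r : ℝ => (1 + (r : ℂ)) ^ 3 * (1 + (r : ℂ) ^ 2)⁻¹) 1 :=
    ((continuousAt_const.add c0).pow 3).mul i2
  have a0 : ContinuousAt (fun r : ℝ => 2 * (1 + (r : ℂ) ^ 2)⁻¹) 1 := continuousAt_const.mul i2
  have u1 : ContinuousAt (fun r : ℝ => (1 - (r : ℂ) ^ 3) * (1 + (r : ℂ) ^ 3)⁻¹) 1 :=
    (continuousAt_const.sub (c0.pow 3)).mul i3
  have u0 : ContinuousAt (fun r : ℝ => 1 + (r : ℂ)) 1 := continuousAt_const.add c0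
  have hc : ContinuousAt gR 1 := by
    unfold gR
    exact (((((s.pow 3).mul (term_continuousAt 0 a1 a0 (dg 4 (by norm_num)) (s.mul u1) u0)).add
      ((s.pow 3).mul (term_continuousAt 1 a1 a0 i6 (s.mul u1) u0))).add
      (s.mul (term_continuousAt 2 a1 a0 (dg 8 (by norm_num)) (s.mul u1) u0))).add
      (s.mul (term_continuousAt 3 a1 a0 i10 (s.mul u1) u0))).add
      (term_continuousAt 4 a1 a0 (dg 12 (by norm_num)) u1 continuousAt_const)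
  have h0 : gR 1 = 0 := by
    unfold gR term
    norm_num
  have := hc.tendsto
  rwa [h0] at this

/-! ### the contradiction -/

theorem not_eventually_nonneg (ℓ₀ : ℕ) :
    ∃ ℓ ≥ ℓ₀, (-1 : ℤ) ^ ℓ * arr.chi ℓ < 0 := by
  by_contra hcon
  push Not at hcon
  -- the real sequence
  set a : ℕ → ℝ := fun ℓ => (-1 : ℝ) ^ ℓ * (arr.chi ℓ : ℝ) with ha
  have hpos : ∀ ℓ ≥ ℓ₀, 0 ≤ a ℓ := by
    intro ℓ hℓ
    have := hcon ℓ hℓ
    have h2 : ((0 : ℤ) : ℝ) ≤ (((-1 : ℤ) ^ ℓ * arr.chi ℓ : ℤ) : ℝ) := by exact_mod_cast this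
    push_cast at h2
    exact h2
  set C : ℝ := ∑ ℓ ∈ Finset.range ℓ₀, 2 * |a ℓ| with hC
  -- the main inequality
  have main : ∀ r : ℝ, 0 < r → r < 1 →
      ‖Phi (-(Complex.I * r))‖ ≤ ‖Phi (-(r : ℂ))‖ + C := by
    intro r hr0 hr1
    have hz1 : ‖-(Complex.I * (r : ℂ))‖ ≤ r := by
      rw [norm_neg, norm_mul, Complex.norm_I, one_mul, Complex.norm_real, Real.norm_eq_abs,
        abs_of_pos hr0]
    have hz2 : ‖-(r : ℂ)‖ ≤ r := by
      rw [norm_neg, Complex.norm_real, Real.norm_eq_abs, abs_of_pos hr0]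
    obtain ⟨s1, e1⟩ := main_eval hr0.le hr1 hz1
    obtain ⟨s2, e2⟩ := main_eval hr0.le hr1 hz2
    have t1 : ∀ ℓ, ‖(arr.chi ℓ : ℂ) * (-(Complex.I * (r : ℂ))) ^ ℓ‖ = |a ℓ| * r ^ ℓ := by
      intro ℓ
      rw [norm_mul, norm_pow, norm_neg, norm_mul, Complex.norm_I, one_mul, Complex.norm_real,
        Real.norm_eq_abs, abs_of_pos hr0, ha]
      simp only [abs_mul, abs_pow, abs_neg, abs_one, one_pow, one_mul]
      rw [Complex.norm_intCast]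
    have t2 : ∀ ℓ, (arr.chi ℓ : ℂ) * (-(r : ℂ)) ^ ℓ = ((a ℓ * r ^ ℓ : ℝ) : ℂ) := by
      intro ℓ
      rw [ha]
      push_cast
      rw [neg_pow]
      ring
    have s2' : Summable fun ℓ => a ℓ * r ^ ℓ := by
      have := s2.of_norm
      simp_rw [t2] at this
      exact_mod_cast this
    have s1' : Summable fun ℓ => |a ℓ| * r ^ ℓ := by
      simp_rw [t1] at s1
      exact s1
    have b1 : ‖Phi (-(Complex.I * r))‖ ≤ ∑' ℓ, |a ℓ| * r ^ ℓ := by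
      rw [← e1]
      refine (norm_tsum_le_tsum_norm s1).trans ?_
      simp_rw [t1]
      exact le_rfl
    have b2 : ∑' ℓ, a ℓ * r ^ ℓ ≤ ‖Phi (-(r : ℂ))‖ := by
      rw [← e2]
      simp_rw [t2]
      rw [← Complex.ofReal_tsum, Complex.norm_real]
      exact le_abs_self _
    have b3 : ∑' ℓ, |a ℓ| * r ^ ℓ ≤ ∑' ℓ, (a ℓ * r ^ ℓ) + C := by
      have sfin : Summable fun ℓ => if ℓ < ℓ₀ then 2 * |a ℓ| else 0 :=
        summable_of_ne_finset_zero (s := Finset.range ℓ₀) fun ℓ hℓ => by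
          rw [if_neg (by simpa using hℓ)]
      have efin : ∑' ℓ, (if ℓ < ℓ₀ then 2 * |a ℓ| else 0) = C := by
        rw [tsum_eq_sum (s := Finset.range ℓ₀) fun ℓ hℓ => by rw [if_neg (by simpa using hℓ)]]
        refine Finset.sum_congr rfl fun ℓ hℓ => ?_
        rw [if_pos (Finset.mem_range.1 hℓ)]
      rw [← efin, ← s2'.tsum_add sfin]
      refine s1'.tsum_le_tsum (fun ℓ => ?_) (s2'.add sfin)
      have hp0 : 0 ≤ r ^ ℓ := pow_nonneg hr0.le ℓ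
      have hp1 : r ^ ℓ ≤ 1 := pow_le_one₀ hr0.le hr1.le
      by_cases hℓ : ℓ < ℓ₀
      · rw [if_pos hℓ]
        have h1 := neg_abs_le (a ℓ)
        have h2 := abs_nonneg (a ℓ)
        nlinarith [mul_nonneg h2 (sub_nonneg.2 hp1), mul_le_mul_of_nonneg_right h1 hp0]
      · rw [if_neg hℓ, add_zero, abs_of_nonneg (hpos ℓ (not_lt.1 hℓ))]
    linarith
  -- multiply by (1 - r)^5 and pass to the limit
  have lim1 : Tendsto (fun r : ℝ => ‖gI r‖) (𝓝[<] 1) (𝓝 (2 / 15)) := by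
    have := (gI_continuousAt.tendsto.mono_left (nhdsWithin_le_nhds (s := Set.Iio 1))).norm
    rw [gI_one] at this
    convert this using 2
    rw [norm_mul, Complex.norm_I, mul_one]
    norm_num
  have lim2 : Tendsto (fun r : ℝ => ‖gR r‖ + (1 - r) ^ 5 * C) (𝓝[<] 1) (𝓝 0) := by
    have h1 := (gR_tendsto.mono_left (nhdsWithin_le_nhds (s := Set.Iio 1))).norm
    have h2 : Tendsto (fun r : ℝ => (1 - r) ^ 5 * C) (𝓝[<] 1) (𝓝 0) := by
      have h3 : Continuous fun r : ℝ => (1 - r) ^ 5 * C := by fun_prop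
      have h4 := h3.tendsto 1
      simp only [sub_self, ne_eq, OfNat.ofNat_ne_zero, not_false_eq_true, zero_pow,
        zero_mul] at h4
      exact h4.mono_left nhdsWithin_le_nhds
    have := h1.add h2
    simpa using this
  have hle : ∀ᶠ r : ℝ in 𝓝[<] 1, ‖gI r‖ ≤ ‖gR r‖ + (1 - r) ^ 5 * C := by
    have h0 : ∀ᶠ r : ℝ in 𝓝[<] 1, 0 < r :=
      (eventually_gt_nhds (by norm_num : (0 : ℝ) < 1)).filter_mono nhdsWithin_le_nhds
    filter_upwards [h0, self_mem_nhdsWithin] with r hr0 hr1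
    have hr1' : r < 1 := hr1
    have hn : ‖(1 - (r : ℂ)) ^ 5‖ = (1 - r) ^ 5 := by
      rw [norm_pow]
      congr 1
      rw [← Complex.ofReal_one, ← Complex.ofReal_sub, Complex.norm_real, Real.norm_eq_abs,
        abs_of_pos (by linarith)]
    rw [← gI_eq r hr0 hr1', ← gR_eq r hr0 hr1', norm_mul, norm_mul, hn, ← mul_add]
    exact mul_le_mul_of_nonneg_left (main r hr0 hr1') (by
      have : 0 ≤ 1 - r := by linarith
      positivity)
  have := le_of_tendsto_of_tendsto lim1 lim2 hle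
  norm_num at this

end Pool.Agent.Lib.MP_46ca68_co
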